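import Mathlib

set_option autoImplicit false

namespace Pool.Agent.helper52.Skel

theorem ar1 (a S : ℝ) (ha : 2 ≤ a) (h1 : 1 ≤ 2 * S) (h2 : S ≤ a) :
    4 * S ^ 2 ≤ a ^ 2 * (4 * S - 1) := by
  have e : a ^ 2 * (4 * S - 1) - 4 * S ^ 2
      = 4 * ((S - 1/2) * (a - S)) + (4 * a * (a - 2) + 4 * (a - 2) + 6) * (S - 1/2) + (a - 1) * (a + 1) := by
    ring
  have i1 : 0 ≤ (S - 1/2) * (a - S) := mul_nonneg (by linarith) (by linarith)
  have i2 : 0 ≤ (4 * a * (a - 2) + 4 * (a - 2) + 6) * (S - 1/2) := by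
    apply mul_nonneg _ (by linarith)
    have : 0 ≤ 4 * a * (a - 2) := mul_nonneg (by linarith) (by linarith)
    linarith
  have i3 : 0 ≤ (a - 1) * (a + 1) := mul_nonneg (by linarith) (by linarith)
  linarith

theorem ar2 (a S : ℝ) (ha : 2 ≤ a) (h1 : 1 ≤ 2 * S) (h2 : 2 * S ≤ a) :
    4 * S ^ 2 * (2 * a - 1) ≤ a ^ 2 * (4 * S - 1) := by
  have h29 : 4 * S ^ 2 * (2 * a - 1) - a ^ 2 * (4 * S - 1)
      = -((a - 2 * S) * (2 * S * (a - 1) + a * (2 * S - 1))) := by ring
  have h30 : 0 ≤ (a - 2 * S) * (2 * S * (a - 1) + a * (2 * S - 1)) := by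
    apply mul_nonneg (by linarith)
    have : 0 ≤ 2 * S * (a - 1) := mul_nonneg (by linarith) (by linarith)
    have : 0 ≤ a * (2 * S - 1) := mul_nonneg (by linarith) (by linarith)
    linarith
  linarith

/-- case 2 -/
theorem arith_case2 (a b r S N u S0 t e P : ℝ) (ha : 2 ≤ a) (hab : a ≤ b) (hN : N = a + b)
    (hu : u * N = 1) (hupos : 0 < u) (hrpos : 0 < r)
    (hr : a * b < r * (N - 1)) (hS : S ≤ S0) (hS2 : 1 < 2 * S)
    (hS0N : S0 * N = a * b)
    (ht2 : t ^ 2 = 1 - 4 * S0 * u) (he : e = S0 - S) (hP : P = r * (1 - u) - S)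
    (he0 : 0 ≤ e) (hPe : e < P)
    (hcase : r * t ^ 2 ≤ 4 * e * P)
    (hQ : 4 * S * P - 4 * r * e * u - r * t ^ 2 ≤ 0)
    (h24 : r * (4 * S - 1) ≤ 4 * S ^ 2) : False := by
  have hb : 2 ≤ b := le_trans ha hab
  have hNpos : 0 < N := by rw [hN]; linarith
  -- Q = 4 S (r - S) - r
  have hQ2 : 4 * S * (r - S) ≤ r := by
    have : 4 * S * P - 4 * r * e * u - r * t ^ 2 = 4 * S * (r - S) - r := by
      rw [ht2, hP, he]; ring
    linarith
  have h10 : r + 4 * S * (r - S) ≤ 4 * S0 * (r - S) + 4 * S * r * u := by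
    have h00 : r - 4 * S0 * u * r ≤ 4 * (S0 - S) * (r * (1 - u) - S) := by
      have h1 : r * t ^ 2 = r - 4 * S0 * u * r := by rw [ht2]; ring
      rw [← h1, ← he, ← hP]; exact hcase
    have h01 : 4 * (S0 - S) * (r * (1 - u) - S) = 4 * S0 * (r - S) + 4 * S * r * u
      - 4 * S * (r - S) - 4 * S0 * u * r := by ring
    linarith
  have hrS : 0 < r - S := by
    have h00 : S0 < r * (1 - u) := by rw [he, hP] at hPe; linarith
    have h01 : r * (1 - u) = r - r * u := by ring
    have h02 : 0 < r * u := by positivity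
    linarith
  have h11 : r ≤ 4 * e * (r - S) + 4 * S * r * u := by
    have : 4 * e * (r - S) = 4 * S0 * (r - S) - 4 * S * (r - S) := by rw [he]; ring
    linarith
  have h12 : S * r ≤ e * r + 4 * S ^ 2 * r * u := by
    have h13 : S * (4 * e * (r - S)) ≤ e * r := by
      have : S * (4 * e * (r - S)) = e * (4 * S * (r - S)) := by ring
      rw [this]; exact mul_le_mul_of_nonneg_left hQ2 he0
    have h14 : S * r ≤ S * (4 * e * (r - S) + 4 * S * r * u) :=
      mul_le_mul_of_nonneg_left h11 (by linarith)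
    have h140 : S * (4 * e * (r - S) + 4 * S * r * u)
      = S * (4 * e * (r - S)) + 4 * S ^ 2 * r * u := by ring
    linarith
  have h15 : S ≤ e + 4 * S ^ 2 * u := by
    have : S * r ≤ (e + 4 * S ^ 2 * u) * r := by
      have h150 : (e + 4 * S ^ 2 * u) * r = e * r + 4 * S ^ 2 * r * u := by ring
      linarith
    exact le_of_mul_le_mul_right this hrpos
  -- (2S - a)(2S - b) ≥ 0
  have hSN : S * N ≤ a * b := by
    rw [← hS0N]; exact mul_le_mul_of_nonneg_right hS hNpos.le
  have h16 : 0 ≤ (2 * S - a) * (2 * S - b) := by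
    have h17 : S * N ≤ (e + 4 * S ^ 2 * u) * N := mul_le_mul_of_nonneg_right h15 hNpos.le
    have h18 : (e + 4 * S ^ 2 * u) * N = a * b - S * N + 4 * S ^ 2 := by
      have : (e + 4 * S ^ 2 * u) * N = S0 * N - S * N + 4 * S ^ 2 * (u * N) := by rw [he]; ring
      rw [this, hS0N, hu]; ring
    rw [h18, hN] at h17
    have h180 : (2 * S - a) * (2 * S - b) = 4 * S ^ 2 - 2 * (S * (a + b)) + a * b := by ring
    rw [h180]; linarith
  have h19 : 2 * S ≤ b := by
    have h20 : 2 * S * N ≤ b * N := by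
      rw [hN] at hSN ⊢
      have h201 : 0 ≤ b * (b - a) := mul_nonneg (by linarith) (by linarith)
      have h202 : b * (a + b) = 2 * (a * b) + b * (b - a) := by ring
      have h203 : 2 * S * (a + b) = 2 * (S * (a + b)) := by ring
      rw [h202, h203]; linarith
    exact le_of_mul_le_mul_right h20 hNpos
  have h21 : 2 * S ≤ a := by
    by_contra hcon
    push Not at hcon
    have h22 : 2 * S = b := by
      by_contra hne
      have h220 : 2 * S < b := lt_of_le_of_ne h19 hne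
      have h221 : (2 * S - a) * (2 * S - b) < 0 :=
        mul_neg_of_pos_of_neg (by linarith) (by linarith)
      linarith
    have h23 : b * (a + b) ≤ b * (2 * a) := by
      have h230 : b * (a + b) = 2 * (S * N) := by
        rw [hN]; linear_combination (-(a + b)) * h22
      have h231 : b * (2 * a) = 2 * (a * b) := by ring
      rw [h230, h231]; linarith
    have h24 : a + b ≤ 2 * a := le_of_mul_le_mul_left h23 (by linarith)
    linarith
  -- r ≤ 4 S^2/(4 S - 1) ≤ a^2/(2 a - 1)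
  have h25 : r * (2 * a - 1) ≤ a ^ 2 := by
    have h26 := ar2 a S ha hS2.le h21
    have h28 : r * (4 * S - 1) * (2 * a - 1) ≤ 4 * S ^ 2 * (2 * a - 1) :=
      mul_le_mul_of_nonneg_right h24 (by linarith)
    have h27 : r * (2 * a - 1) * (4 * S - 1) ≤ a ^ 2 * (4 * S - 1) := by
      have : r * (2 * a - 1) * (4 * S - 1) = r * (4 * S - 1) * (2 * a - 1) := by ring
      rw [this]; linarith
    exact le_of_mul_le_mul_right h27 (by linarith)
  -- a b (2a - 1) < r (N-1)(2a-1) ≤ a^2 (N-1)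
  have h31 : a * (b * (2 * a - 1)) < a * (a * (N - 1)) := by
    have h32 : a * b * (2 * a - 1) < r * (N - 1) * (2 * a - 1) :=
      mul_lt_mul_of_pos_right hr (by linarith)
    have h33 : r * (2 * a - 1) * (N - 1) ≤ a ^ 2 * (N - 1) :=
      mul_le_mul_of_nonneg_right h25 (by rw [hN]; linarith)
    have e1 : a * (b * (2 * a - 1)) = a * b * (2 * a - 1) := by ring
    have e2 : a * (a * (N - 1)) = a ^ 2 * (N - 1) := by ring
    have e3 : r * (N - 1) * (2 * a - 1) = r * (2 * a - 1) * (N - 1) := by ring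
    rw [e1, e2]; rw [e3] at h32; linarith
  have h34 : b * (2 * a - 1) < a * (N - 1) := lt_of_mul_lt_mul_left h31 (by linarith)
  have h35 : 0 ≤ (b - a) * (a - 1) := mul_nonneg (by linarith) (by linarith)
  have h36 : b * (2 * a - 1) - a * (N - 1) = (b - a) * (a - 1) := by rw [hN]; ring
  linarith

/-- case 1 -/
theorem arith_case1 (r S S0 u t e P s z T : ℝ) (hupos : 0 < u) (hrpos : 0 < r)
    (he : e = S0 - S) (he0 : 0 ≤ e) (hPe : e < P)
    (ht0 : 0 ≤ t) (hs0 : 0 < s) (hs : s ^ 2 = r) (hTdef : T = t * s) (hT : T ≤ S0 - r * u)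
    (hF : 4 * S * P - 4 * r * e * u - 2 * r * t * z + r * z ^ 2 ≤ 0)
    (h2' : r * z ^ 2 ≤ 4 * e * P)
    (hcase : 4 * e * P < r * t ^ 2) : False := by
  have hPpos : 0 < P := lt_of_le_of_lt he0 hPe
  have hT0 : 0 ≤ T := by rw [hTdef]; positivity
  obtain ⟨w, hw0, hw⟩ : ∃ w : ℝ, 0 ≤ w ∧ w ^ 2 = e * P :=
    ⟨Real.sqrt (e * P), Real.sqrt_nonneg _, Real.sq_sqrt (by positivity)⟩
  have hwT : 2 * w < T := by
    have : (2 * w) ^ 2 < T ^ 2 := by
      have e1 : (2 * w) ^ 2 = 4 * e * P := by linear_combination 4 * hw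
      have e2 : T ^ 2 = r * t ^ 2 := by rw [hTdef, ← hs]; ring
      rw [e1, e2]; exact hcase
    exact lt_of_pow_lt_pow_left₀ 2 hT0 this
  have hwP : w < P := by
    have h0 : w ^ 2 < P ^ 2 := by
      rw [hw, sq]; exact mul_lt_mul_of_pos_right hPe hPpos
    exact lt_of_pow_lt_pow_left₀ 2 hPpos.le h0
  have hzw : s * z ≤ 2 * w := by
    have h0 : (s * z) ^ 2 ≤ (2 * w) ^ 2 := by
      have e1 : (2 * w) ^ 2 = 4 * e * P := by linear_combination 4 * hw
      have e2 : (s * z) ^ 2 = r * z ^ 2 := by rw [← hs]; ring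
      rw [e1, e2]; exact h2'
    exact (abs_le_of_sq_le_sq' h0 (by positivity)).2
  -- f(sz) ≥ f(2w)
  have hf : (2 * w) ^ 2 - 2 * T * (2 * w) ≤ r * z ^ 2 - 2 * r * t * z := by
    have e1 : r * z ^ 2 - 2 * r * t * z = (s * z) ^ 2 - 2 * T * (s * z) := by
      rw [hTdef, ← hs]; ring
    have e2 : (s * z) ^ 2 - 2 * T * (s * z) - ((2 * w) ^ 2 - 2 * T * (2 * w))
      = (2 * w - s * z) * (2 * T - 2 * w - s * z) := by ring
    have e3 : 0 ≤ (2 * w - s * z) * (2 * T - 2 * w - s * z) :=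
      mul_nonneg (by linarith) (by linarith)
    rw [e1]; linarith
  have h40 : 4 * S0 * P - 4 * r * e * u - 4 * T * w ≤ 0 := by
    have e1 : 4 * S * P + 4 * (e * P) = 4 * S0 * P := by rw [he]; ring
    have e2 : (2 * w) ^ 2 = 4 * (e * P) := by linear_combination 4 * hw
    have e3 : 2 * T * (2 * w) = 4 * T * w := by ring
    rw [e2, e3] at hf
    linarith
  have h41 : r * e * u < r * P * u := by
    have h0 : r * e < r * P := mul_lt_mul_of_pos_left hPe hrpos
    exact mul_lt_mul_of_pos_right h0 hupos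
  have h42 : T * w ≤ T * P := mul_le_mul_of_nonneg_left hwP.le hT0
  have h43 : 0 ≤ P * (S0 - r * u - T) := mul_nonneg hPpos.le (by linarith)
  have h44 : P * (S0 - r * u - T) = S0 * P - r * P * u - T * P := by ring
  rw [h44] at h43
  linarith

/-- the final numerical contradiction, case `a ≤ b` -/
theorem arith_aux (a b r S th N u S0 t : ℝ) (ha : 2 ≤ a) (hab : a ≤ b) (hN : N = a + b)
    (hu : u * N = 1) (hS0 : S0 = a * b * u) (ht : t = (b - a) * u)
    (hr : a * b < r * (N - 1)) (hS : S ≤ S0) (hS2 : 1 < 2 * S)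
    (h2 : r * (th - t) ^ 2 ≤ 4 * (S0 - S) * (r * (1 - u) - S))
    (h3 : r * (4 * S - 1 + th ^ 2) ≤ 4 * S ^ 2) : False := by
  have hb : 2 ≤ b := le_trans ha hab
  have hNpos : 0 < N := by rw [hN]; linarith
  have hu' : u = N⁻¹ := eq_inv_of_mul_eq_one_left hu
  have hupos : 0 < u := by rw [hu']; positivity
  have hab0 : 0 < a * b := by positivity
  have hrpos : 0 < r := by
    by_contra hcon
    push Not at hcon
    have : r * (N - 1) ≤ 0 := mul_nonpos_of_nonpos_of_nonneg hcon (by rw [hN]; linarith)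
    linarith
  -- S0 identities
  have hS0N : S0 * N = a * b := by rw [hS0]; linear_combination (a * b) * hu
  have htN : t * N = b - a := by rw [ht]; linear_combination (b - a) * hu
  have ht0 : 0 ≤ t := by rw [ht]; exact mul_nonneg (by linarith) hupos.le
  have ht2 : t ^ 2 = 1 - 4 * S0 * u := by
    have h0 : (t * N) ^ 2 = N ^ 2 - 4 * (S0 * N) := by rw [htN, hS0N, hN]; ring
    have h5 : t ^ 2 = (t * N) ^ 2 * u ^ 2 := by
      have h6 : t ^ 2 = t ^ 2 * (u * N) ^ 2 := by rw [hu]; ring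
      rw [h6]; ring
    rw [h5, h0]
    have h7 : (N ^ 2 - 4 * (S0 * N)) * u ^ 2 = (u * N) ^ 2 - 4 * S0 * u * (u * N) := by ring
    rw [h7, hu]; ring
  -- P > e
  obtain ⟨e, he⟩ : ∃ e, e = S0 - S := ⟨_, rfl⟩
  obtain ⟨P, hP⟩ : ∃ P, P = r * (1 - u) - S := ⟨_, rfl⟩
  have he0 : 0 ≤ e := by rw [he]; linarith
  have hPe : e < P := by
    have h0 : S0 < r * (1 - u) := by
      have h6 : S0 * N < r * (1 - u) * N := by
        rw [hS0N]
        have : r * (1 - u) * N = r * (N - 1) := by linear_combination (-r) * hu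
        linarith
      exact lt_of_mul_lt_mul_right h6 hNpos.le
    rw [he, hP]; linarith
  have hS0a : S0 ≤ a := by
    have h6 : S0 * N ≤ a * N := by
      rw [hS0N, hN]; exact mul_le_mul_of_nonneg_left (by linarith) (by linarith)
    exact le_of_mul_le_mul_right h6 hNpos
  have h24 : r * (4 * S - 1) ≤ 4 * S ^ 2 := by
    have h9 : r * (4 * S - 1) ≤ r * (4 * S - 1 + th ^ 2) := by
      apply mul_le_mul_of_nonneg_left _ hrpos.le
      linarith [sq_nonneg th]
    linarith
  -- r ≤ a^2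
  have hra : r ≤ a ^ 2 := by
    have h1 := ar1 a S ha hS2.le (le_trans hS hS0a)
    have h4 : r * (4 * S - 1) ≤ a ^ 2 * (4 * S - 1) := by linarith
    exact le_of_mul_le_mul_right h4 (by linarith)
  -- square root of r
  obtain ⟨s, hs0, hs⟩ : ∃ s : ℝ, 0 < s ∧ s ^ 2 = r :=
    ⟨Real.sqrt r, Real.sqrt_pos.mpr hrpos, Real.sq_sqrt hrpos.le⟩
  have hsa : s ≤ a := by
    have : s ^ 2 ≤ a ^ 2 := by rw [hs]; exact hra
    exact le_of_sq_le_sq this (by linarith)
  -- T = t s ≤ S0 - r u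
  have hT : t * s ≤ S0 - r * u := by
    have h6 : t * s * N ≤ (S0 - r * u) * N := by
      have e1 : t * s * N = (b - a) * s := by rw [← htN]; ring
      have e2 : (S0 - r * u) * N = a * b - r := by
        have h0 : (S0 - r * u) * N = S0 * N - r * (u * N) := by ring
        rw [h0, hS0N, hu]; ring
      rw [e1, e2, ← hs]
      have e4 : a * b - s ^ 2 - (b - a) * s = (a - s) * (b + s) := by ring
      have e5 : 0 ≤ (a - s) * (b + s) := mul_nonneg (by linarith) (by linarith)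
      linarith
    exact le_of_mul_le_mul_right h6 hNpos
  -- the identity for F
  obtain ⟨z, hz⟩ : ∃ z, z = t - th := ⟨_, rfl⟩
  have hF : 4 * S * P - 4 * r * e * u - 2 * r * t * z + r * z ^ 2 ≤ 0 := by
    have e3 : 4 * S * P - 4 * r * e * u - 2 * r * t * z + r * z ^ 2
        = r * (4 * S - 1 + th ^ 2) - 4 * S ^ 2 := by
      have h0 : th = t - z := by rw [hz]; ring
      rw [h0, hP, he]
      linear_combination (-r) * ht2
    rw [e3]; linarith
  have h2' : r * z ^ 2 ≤ 4 * e * P := by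
    have h0 : z ^ 2 = (th - t) ^ 2 := by rw [hz]; ring
    rw [h0, he, hP]; exact h2
  rcases le_or_gt (r * t ^ 2) (4 * e * P) with hcase | hcase
  · have hQ : 4 * S * P - 4 * r * e * u - r * t ^ 2 ≤ 0 := by
      have h0 : 0 ≤ r * (z - t) ^ 2 := by positivity
      have h00 : r * (z - t) ^ 2 = r * z ^ 2 - 2 * r * t * z + r * t ^ 2 := by ring
      linarith
    exact arith_case2 a b r S N u S0 t e P ha hab hN hu hupos hrpos hr hS hS2 hS0N ht2 he hP he0
      hPe hcase hQ h24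
  · exact arith_case1 r S S0 u t e P s z (t * s) hupos hrpos he he0 hPe ht0 hs0 hs rfl hT hF h2' hcase

theorem arith_final (a b r S th N u S0 t : ℝ) (ha : 2 ≤ a) (hb : 2 ≤ b) (hN : N = a + b)
    (hu : u * N = 1) (hS0 : S0 = a * b * u) (ht : t = (b - a) * u)
    (hr : a * b < r * (N - 1)) (hS : S ≤ S0) (hS2 : 1 < 2 * S)
    (h2 : r * (th - t) ^ 2 ≤ 4 * (S0 - S) * (r * (1 - u) - S))
    (h3 : r * (4 * S - 1 + th ^ 2) ≤ 4 * S ^ 2) : False := by
  rcases le_total a b with hab | hab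
  · exact arith_aux a b r S th N u S0 t ha hab hN hu hS0 ht hr hS hS2 h2 h3
  · refine arith_aux b a r S (-th) N u S0 (-t) hb hab (by rw [hN]; ring) hu
      (by rw [hS0]; ring) (by rw [ht]; ring) (by linarith) hS hS2 ?_ ?_
    · have h0 : (-th - -t) ^ 2 = (th - t) ^ 2 := by ring
      rw [h0]; exact h2
    · rw [neg_sq]; exact h3

end Pool.Agent.helper52.Skel
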