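import Mathlib

set_option autoImplicit false

namespace Pool.Agent.helper52.Skel

open Finset

variable {ι : Type} [Fintype ι]

/-- bilinear form of a matrix -/
def bf (G : ι → ι → ℝ) (x y : ι → ℝ) : ℝ := ∑ i, ∑ j, x i * G i j * y j

theorem bf_add_left (G : ι → ι → ℝ) (x y z : ι → ℝ) :
    bf G (x + y) z = bf G x z + bf G y z := by
  simp only [bf, Pi.add_apply, add_mul, Finset.sum_add_distrib]

theorem bf_add_right (G : ι → ι → ℝ) (x y z : ι → ℝ) :
    bf G x (y + z) = bf G x y + bf G x z := by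
  simp only [bf, Pi.add_apply, mul_add, Finset.sum_add_distrib]

theorem bf_sub_left (G : ι → ι → ℝ) (x y z : ι → ℝ) :
    bf G (x - y) z = bf G x z - bf G y z := by
  simp only [bf, Pi.sub_apply, sub_mul, Finset.sum_sub_distrib]

theorem bf_sub_right (G : ι → ι → ℝ) (x y z : ι → ℝ) :
    bf G x (y - z) = bf G x y - bf G x z := by
  simp only [bf, Pi.sub_apply, mul_sub, Finset.sum_sub_distrib]

theorem bf_smul_left (G : ι → ι → ℝ) (c : ℝ) (x y : ι → ℝ) :
    bf G (c • x) y = c * bf G x y := by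
  simp only [bf, Pi.smul_apply, smul_eq_mul, Finset.mul_sum, mul_assoc]

theorem bf_smul_right (G : ι → ι → ℝ) (c : ℝ) (x y : ι → ℝ) :
    bf G x (c • y) = c * bf G x y := by
  simp only [bf, Pi.smul_apply, smul_eq_mul, Finset.mul_sum]
  refine Finset.sum_congr rfl fun i _ => Finset.sum_congr rfl fun j _ => by ring

theorem bf_add_mat (G H : ι → ι → ℝ) (x y : ι → ℝ) :
    bf (G + H) x y = bf G x y + bf H x y := by
  simp only [bf, Pi.add_apply, mul_add, add_mul, Finset.sum_add_distrib]

theorem bf_sub_mat (G H : ι → ι → ℝ) (x y : ι → ℝ) :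
    bf (G - H) x y = bf G x y - bf H x y := by
  simp only [bf, Pi.sub_apply, mul_sub, sub_mul, Finset.sum_sub_distrib]

theorem bf_smul_mat (G : ι → ι → ℝ) (c : ℝ) (x y : ι → ℝ) :
    bf (c • G) x y = c * bf G x y := by
  simp only [bf, Pi.smul_apply, smul_eq_mul, Finset.mul_sum]
  refine Finset.sum_congr rfl fun i _ => Finset.sum_congr rfl fun j _ => by ring

theorem bf_sum_left {κ : Type*} (G : ι → ι → ℝ) (s : Finset κ) (f : κ → ι → ℝ) (y : ι → ℝ) :
    bf G (∑ k ∈ s, f k) y = ∑ k ∈ s, bf G (f k) y := by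
  classical
  induction s using Finset.induction_on with
  | empty => simp [bf]
  | insert a s ha ih => rw [Finset.sum_insert ha, Finset.sum_insert ha, bf_add_left, ih]

theorem bf_comm {G : ι → ι → ℝ} (hs : ∀ i j, G i j = G j i) (x y : ι → ℝ) :
    bf G x y = bf G y x := by
  unfold bf
  rw [Finset.sum_comm]
  refine Finset.sum_congr rfl fun i _ => Finset.sum_congr rfl fun j _ => ?_
  rw [hs j i]; ring

/-- feasible Gram matrices: symmetric, positive semidefinite, diagonal at most one -/
structure Feas (G : ι → ι → ℝ) : Prop where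
  symm : ∀ i j, G i j = G j i
  psd : ∀ x : ι → ℝ, 0 ≤ bf G x x
  diag : ∀ i, G i i ≤ 1

variable [DecidableEq ι]

theorem bf_single (G : ι → ι → ℝ) (i j : ι) :
    bf G (Pi.single i 1) (Pi.single j 1) = G i j := by
  unfold bf
  rw [Finset.sum_eq_single i, Finset.sum_eq_single j]
  · simp
  · intro b _ hb; simp [hb]
  · simp
  · intro b _ hb
    simp [hb]
  · simp

theorem Feas.diag_nonneg {G : ι → ι → ℝ} (h : Feas G) (i : ι) : 0 ≤ G i i := by
  have := h.psd (Pi.single i 1)
  rwa [bf_single] at this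

theorem Feas.abs_le {G : ι → ι → ℝ} (h : Feas G) (i j : ι) : |G i j| ≤ 1 := by
  have h1 := h.psd (Pi.single i 1 - Pi.single j 1)
  have h2 := h.psd (Pi.single i 1 + Pi.single j 1)
  rw [bf_sub_left, bf_sub_right, bf_sub_right] at h1
  rw [bf_add_left, bf_add_right, bf_add_right] at h2
  simp only [bf_single] at h1 h2
  have hi := h.diag i
  have hj := h.diag j
  have hs := h.symm i j
  rw [_root_.abs_le]; constructor <;> linarith

omit [DecidableEq ι] in
/-- Cauchy-Schwarz -/
theorem Feas.cs {G : ι → ι → ℝ} (h : Feas G) (x y : ι → ℝ) (hy : 0 < bf G y y) :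
    bf G x y ^ 2 ≤ bf G x x * bf G y y := by
  have h1 := h.psd (bf G y y • x - bf G x y • y)
  simp only [bf_sub_left, bf_sub_right, bf_smul_left, bf_smul_right] at h1
  rw [bf_comm h.symm y x] at h1
  have h2 : 0 ≤ bf G y y * (bf G x x * bf G y y - bf G x y ^ 2) := by nlinarith
  have h3 := (mul_nonneg_iff_of_pos_left hy).mp h2
  linarith

omit [DecidableEq ι] in
theorem convex_feas : Convex ℝ {G : ι → ι → ℝ | Feas G} := by
  intro G hG H hH a b ha hb hab
  refine ⟨?_, ?_, ?_⟩
  · intro i j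
    simp [hG.symm i j, hH.symm i j]
  · intro x
    rw [bf_add_mat, bf_smul_mat, bf_smul_mat]
    have := hG.psd x
    have := hH.psd x
    positivity
  · intro i
    have h1 := hG.diag i
    have h2 := hH.diag i
    simp only [Pi.add_apply, Pi.smul_apply, smul_eq_mul]
    nlinarith

/-- indicator -/
def ind (I : Finset ι) : ι → ℝ := fun i => if i ∈ I then 1 else 0

theorem sum_ind (I : Finset ι) : ∑ i, ind I i = I.card := by
  simp [ind]

theorem sum_ind_mul (I : Finset ι) (f : ι → ℝ) : ∑ i, ind I i * f i = ∑ i ∈ I, f i := by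
  simp [ind, Finset.sum_ite_mem]

end Pool.Agent.helper52.Skel
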