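import Pool.Agent.helper52.Skel.Exch
import Pool.Agent.helper52.Skel.Arith

set_option autoImplicit false

namespace Pool.Agent.helper52.Skel

open Finset

variable {ι : Type} [Fintype ι] [DecidableEq ι] {κ : Type} [Fintype κ]

/-- second-order condition from optimality of the Gram matrix -/
theorem second_order (G : ι → ι → ℝ) (hG : Feas G) (C : ι → ι → ℝ) (r : ℝ)
    (hr : ∑ i, ∑ j, C i j * G i j = r)
    (hsym : ∀ i j, C i j = C j i)
    (hopt : ∀ G', Feas G' → ∑ i, ∑ j, C i j * G' i j ≤ r) (w : ι → ℝ) :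
    ∑ i, ∑ j, C i j * (w i * w j) ≤ ∑ i, (∑ j, C i j * G i j) * w i ^ 2 := by
  -- W bounds w^2
  obtain ⟨W, hW0, hW⟩ : ∃ W : ℝ, 0 < W ∧ ∀ i, w i ^ 2 ≤ W := by
    refine ⟨1 + ∑ i, w i ^ 2, by positivity, fun i => ?_⟩
    have : w i ^ 2 ≤ ∑ i, w i ^ 2 :=
      Finset.single_le_sum (f := fun i => w i ^ 2) (fun i _ => sq_nonneg _) (Finset.mem_univ i)
    linarith
  -- perturbation
  have hfeas : ∀ τ : ℝ, 0 ≤ τ → τ * W ≤ 1 → Feas (fun i j =>
      (1 - τ * w i ^ 2 / 2) * (1 - τ * w j ^ 2 / 2) * (G i j + τ * (w i * w j))) := by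
    intro τ hτ hτW
    refine ⟨?_, ?_, ?_⟩
    · intro i j; simp only [hG.symm i j]; ring
    · intro x
      have e1 : bf (fun i j =>
        (1 - τ * w i ^ 2 / 2) * (1 - τ * w j ^ 2 / 2) * (G i j + τ * (w i * w j))) x x
        = bf G (fun i => (1 - τ * w i ^ 2 / 2) * x i) (fun i => (1 - τ * w i ^ 2 / 2) * x i)
          + τ * (∑ i, (1 - τ * w i ^ 2 / 2) * x i * w i) ^ 2 := by
        unfold bf
        rw [sq, Finset.sum_mul_sum, Finset.mul_sum, ← Finset.sum_add_distrib]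
        refine Finset.sum_congr rfl fun i _ => ?_
        rw [Finset.mul_sum, ← Finset.sum_add_distrib]
        refine Finset.sum_congr rfl fun j _ => by ring
      rw [e1]
      have := hG.psd (fun i => (1 - τ * w i ^ 2 / 2) * x i)
      positivity
    · intro i
      have h1 : τ * w i ^ 2 ≤ 1 := le_trans (mul_le_mul_of_nonneg_left (hW i) hτ) hτW
      have h2 : 0 ≤ τ * w i ^ 2 := by positivity
      have h3 : G i i + τ * (w i * w i) ≤ 1 + τ * w i ^ 2 := by
        have := hG.diag i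
        have e : τ * (w i * w i) = τ * w i ^ 2 := by ring
        rw [e]; linarith
      have h4 : 0 ≤ (1 - τ * w i ^ 2 / 2) * (1 - τ * w i ^ 2 / 2) := mul_self_nonneg _
      calc (1 - τ * w i ^ 2 / 2) * (1 - τ * w i ^ 2 / 2) * (G i i + τ * (w i * w i))
          ≤ (1 - τ * w i ^ 2 / 2) * (1 - τ * w i ^ 2 / 2) * (1 + τ * w i ^ 2) :=
            mul_le_mul_of_nonneg_left h3 h4
        _ ≤ 1 := by
            generalize τ * w i ^ 2 = a at h1 h2 ⊢
            have e : (1 - a / 2) * (1 - a / 2) * (1 + a) = 1 - a ^ 2 * (3 - a) / 4 := by ring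
            rw [e]
            have : 0 ≤ a ^ 2 * (3 - a) := mul_nonneg (sq_nonneg _) (by linarith)
            linarith
  -- constants
  set X1 := ∑ i, ∑ j, C i j * (w i * w j) - ∑ i, (∑ j, C i j * G i j) * w i ^ 2 with hX1
  by_contra hcon
  push Not at hcon
  have hX1pos : 0 < X1 := by rw [hX1]; linarith
  -- expansion
  obtain ⟨c2, hc2⟩ : ∃ c2 : ℝ, c2 = ∑ i, ∑ j, C i j * (w i ^ 2 * w j ^ 2 / 4 * G i j
      - (w i ^ 2 + w j ^ 2) / 2 * (w i * w j)) := ⟨_, rfl⟩
  obtain ⟨c3, hc3⟩ : ∃ c3 : ℝ, c3 = ∑ i, ∑ j, C i j * (w i ^ 2 * w j ^ 2 / 4 * (w i * w j)) :=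
    ⟨_, rfl⟩
  have hX1' : X1 = ∑ i, ∑ j, C i j * (w i * w j - (w i ^ 2 + w j ^ 2) / 2 * G i j) := by
    have e1 : ∑ i, (∑ j, C i j * G i j) * w i ^ 2 = ∑ i, ∑ j, C i j * (w i ^ 2 * G i j) := by
      refine Finset.sum_congr rfl fun i _ => ?_
      rw [Finset.sum_mul]
      refine Finset.sum_congr rfl fun j _ => by ring
    have e2 : ∑ i, ∑ j, C i j * (w i ^ 2 * G i j) = ∑ i, ∑ j, C i j * (w j ^ 2 * G i j) := by
      rw [Finset.sum_comm]
      refine Finset.sum_congr rfl fun i _ => Finset.sum_congr rfl fun j _ => ?_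
      rw [hsym j i, hG.symm j i]
    have e3 : ∑ i, ∑ j, C i j * (w i * w j - (w i ^ 2 + w j ^ 2) / 2 * G i j)
        = ∑ i, ∑ j, C i j * (w i * w j) - (∑ i, ∑ j, C i j * (w i ^ 2 * G i j)
          + ∑ i, ∑ j, C i j * (w j ^ 2 * G i j)) / 2 := by
      rw [← Finset.sum_add_distrib, Finset.sum_div, ← Finset.sum_sub_distrib]
      refine Finset.sum_congr rfl fun i _ => ?_
      rw [← Finset.sum_add_distrib, Finset.sum_div, ← Finset.sum_sub_distrib]
      refine Finset.sum_congr rfl fun j _ => by ring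
    rw [hX1, e3, ← e2, e1]; ring
  have hexp : ∀ τ : ℝ, 0 ≤ τ → τ * W ≤ 1 → τ * X1 + τ ^ 2 * c2 + τ ^ 3 * c3 ≤ 0 := by
    intro τ hτ hτW
    have h := hopt _ (hfeas τ hτ hτW)
    have e1 : ∑ i, ∑ j, C i j * ((1 - τ * w i ^ 2 / 2) * (1 - τ * w j ^ 2 / 2)
        * (G i j + τ * (w i * w j))) = r + (τ * X1 + τ ^ 2 * c2 + τ ^ 3 * c3) := by
      rw [hX1', hc2, hc3, ← hr]
      simp only [Finset.mul_sum]
      simp only [← Finset.sum_add_distrib]
      refine Finset.sum_congr rfl fun i _ => Finset.sum_congr rfl fun j _ => by ring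
    rw [e1] at h
    linarith
  -- choose small τ
  set K := |c2| + |c3| + W + X1 with hK
  have hKpos : 0 < K := by rw [hK]; positivity
  -- τ = X1 / (2 K (1 + K))?
  set τ := min (1 / W) (min 1 (X1 / (2 * K))) with hτdef
  have hτpos : 0 < τ := by
    rw [hτdef]; apply lt_min (by positivity) (lt_min one_pos (by positivity))
  have hτ1 : τ ≤ 1 := le_trans (min_le_right _ _) (min_le_left _ _)
  have hτW : τ * W ≤ 1 := by
    have : τ ≤ 1 / W := min_le_left _ _
    calc τ * W ≤ (1 / W) * W := mul_le_mul_of_nonneg_right this hW0.le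
      _ = 1 := by field_simp
  have hτK : τ * (2 * K) ≤ X1 := by
    have : τ ≤ X1 / (2 * K) := le_trans (min_le_right _ _) (min_le_right _ _)
    calc τ * (2 * K) ≤ X1 / (2 * K) * (2 * K) := mul_le_mul_of_nonneg_right this (by positivity)
      _ = X1 := by field_simp
  have h := hexp τ hτpos.le hτW
  have h2 : τ * (X1 + τ * (c2 + τ * c3)) ≤ 0 := by
    have e : τ * (X1 + τ * (c2 + τ * c3)) = τ * X1 + τ ^ 2 * c2 + τ ^ 3 * c3 := by ring
    rw [e]; exact h
  have h3 : X1 + τ * (c2 + τ * c3) ≤ 0 := by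
    by_contra hh
    push Not at hh
    have := mul_pos hτpos hh
    linarith
  have h4 : -(|c2| + |c3|) ≤ c2 + τ * c3 := by
    have h5 : |τ * c3| ≤ |c3| := by
      rw [abs_mul, abs_of_pos hτpos]
      have := mul_le_mul_of_nonneg_right hτ1 (abs_nonneg c3)
      linarith
    have := neg_abs_le c2
    have := neg_abs_le (τ * c3)
    linarith
  have h5 : -(τ * (|c2| + |c3|)) ≤ τ * (c2 + τ * c3) := by
    have := mul_le_mul_of_nonneg_left h4 hτpos.le
    linarith
  have h6 : τ * (|c2| + |c3|) ≤ τ * K := by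
    apply mul_le_mul_of_nonneg_left _ hτpos.le
    rw [hK]; linarith
  linarith

end Pool.Agent.helper52.Skel
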