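import Pool.Agent.helper52.Skel.Basic

set_option autoImplicit false

namespace Pool.Agent.helper52.Skel

open Finset

variable {ι : Type} [Fintype ι] [DecidableEq ι]

theorem bf_single_right (G : ι → ι → ℝ) (x : ι → ℝ) (j : ι) :
    bf G x (Pi.single j 1) = ∑ i, x i * G i j := by
  unfold bf
  refine Finset.sum_congr rfl fun i _ => ?_
  rw [Finset.sum_eq_single j]
  · simp
  · intro b _ hb; simp [hb]
  · simp

theorem bf_eq_sum_right (G : ι → ι → ℝ) (x y : ι → ℝ) :
    bf G x y = ∑ j, y j * bf G x (Pi.single j 1) := by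
  simp only [bf_single_right, Finset.mul_sum]
  unfold bf
  rw [Finset.sum_comm]
  refine Finset.sum_congr rfl fun i _ => Finset.sum_congr rfl fun j _ => by ring

/-- The exchange inequality -/
theorem exchange (G : ι → ι → ℝ) (hG : Feas G) (n : ℕ) (I : Finset ι) (hI : I.card = n)
    (μ : ι → ℝ) (h0 : ∀ i, 0 ≤ μ i) (h1 : ∀ i, μ i ≤ 1) (hsum : ∑ i, μ i = n) (r : ℝ)
    (hmin : ∀ J : Finset ι, J.card = n → r ≤ bf G (ind J - μ) (ind J - μ))
    (hact : bf G (ind I - μ) (ind I - μ) = r)
    (Z : ℝ) (hZ : Z = ∑ i, ind I i * (1 - μ i))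
    (a : ι → ℝ) (ha : a = fun i => μ i + ind I i * (1 - 2 * μ i)) :
    4 * Z * r + bf G a a ≤ 4 * Z ^ 2 + r ∧ r ≤ (2 * Z) ^ 2 ∧ 0 ≤ Z := by
  set A : ι → ℝ := fun i => ind I i * (1 - μ i) with hA
  set B : ι → ℝ := fun i => (1 - ind I i) * μ i with hB
  have hind0 : ∀ i, 0 ≤ ind I i := by intro i; unfold ind; split_ifs <;> norm_num
  have hind1 : ∀ i, ind I i ≤ 1 := by intro i; unfold ind; split_ifs <;> norm_num
  have hA0 : ∀ i, 0 ≤ A i := fun i => mul_nonneg (hind0 i) (by linarith [h1 i])
  have hB0 : ∀ i, 0 ≤ B i := fun i => mul_nonneg (by linarith [hind1 i]) (h0 i)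
  have hAs : ∑ i, A i = Z := by rw [hZ]
  have hBs : ∑ i, B i = Z := by
    have e1 : ∑ i, B i = ∑ i, μ i - ∑ i, ind I i * μ i := by
      rw [← Finset.sum_sub_distrib]; refine Finset.sum_congr rfl fun i _ => by rw [hB]; ring
    have e2 : Z = ∑ i, ind I i - ∑ i, ind I i * μ i := by
      rw [hZ, ← Finset.sum_sub_distrib]; refine Finset.sum_congr rfl fun i _ => by ring
    rw [e1, e2, hsum, sum_ind, hI]
  have hAB : A - B = ind I - μ := by
    funext i; simp only [Pi.sub_apply, hA, hB]; ring
  have hABa : A + B = a := by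
    funext i; rw [ha]; simp only [Pi.add_apply, hA, hB]; ring
  have hZ0 : 0 ≤ Z := by rw [← hAs]; exact Finset.sum_nonneg fun i _ => hA0 i
  set ξ := ind I - μ with hξ
  -- pointwise exchange inequality
  have hex : ∀ i j, A i * B j * (2 * (bf G ξ (Pi.single i 1) - bf G ξ (Pi.single j 1)))
      ≤ A i * B j * (G i i + G j j - 2 * G i j) := by
    intro i j
    by_cases hi : i ∈ I
    · by_cases hj : j ∈ I
      · have : B j = 0 := by simp [hB, ind, hj]
        rw [this]; simp
      · apply mul_le_mul_of_nonneg_left _ (mul_nonneg (hA0 i) (hB0 j))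
        have hne : i ≠ j := fun h => hj (h ▸ hi)
        have hJcard : (insert j (I.erase i)).card = n := by
          rw [Finset.card_insert_of_notMem, Finset.card_erase_of_mem hi, hI]
          · have : 0 < n := by rw [← hI]; exact Finset.card_pos.mpr ⟨i, hi⟩
            omega
          · intro h; exact hj (Finset.mem_of_mem_erase h)
        have hJ := hmin _ hJcard
        have hJind : ind (insert j (I.erase i)) - μ
            = ξ - (Pi.single i 1 - Pi.single j 1) := by
          funext l
          simp only [hξ, Pi.sub_apply, ind, Finset.mem_insert, Finset.mem_erase, Pi.single_apply]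
          by_cases hlj : l = j
          · subst hlj
            simp [hj, Ne.symm hne]
            ring
          · by_cases hli : l = i
            · subst hli
              simp [hi, hlj]
            · simp [hlj, hli]
        rw [hJind] at hJ
        simp only [bf_sub_left, bf_sub_right, bf_single] at hJ
        rw [bf_comm hG.symm (Pi.single i 1) ξ, bf_comm hG.symm (Pi.single j 1) ξ] at hJ
        have hs := hG.symm j i
        linarith [hact]
    · have : A i = 0 := by simp [hA, ind, hi]
      rw [this]; simp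
  -- sum them
  have hsumex : 2 * Z * r ≤ 2 * Z ^ 2 - 2 * bf G A B := by
    have h2 : ∑ i, ∑ j, A i * B j * (2 * (bf G ξ (Pi.single i 1) - bf G ξ (Pi.single j 1)))
        ≤ ∑ i, ∑ j, A i * B j * (G i i + G j j - 2 * G i j) :=
      Finset.sum_le_sum fun i _ => Finset.sum_le_sum fun j _ => hex i j
    have hL : ∑ i, ∑ j, A i * B j * (2 * (bf G ξ (Pi.single i 1) - bf G ξ (Pi.single j 1)))
        = 2 * Z * r := by
      have e1 : ∀ i, ∑ j, A i * B j * (2 * (bf G ξ (Pi.single i 1) - bf G ξ (Pi.single j 1)))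
          = 2 * (A i * bf G ξ (Pi.single i 1)) * Z - 2 * A i * bf G ξ B := by
        intro i
        rw [bf_eq_sum_right G ξ B, ← hBs, Finset.mul_sum, Finset.mul_sum, ← Finset.sum_sub_distrib]
        refine Finset.sum_congr rfl fun j _ => by ring
      simp only [e1]
      rw [Finset.sum_sub_distrib, ← Finset.sum_mul, ← Finset.mul_sum, ← bf_eq_sum_right,
        ← Finset.sum_mul, ← Finset.mul_sum, hAs]
      have e2 : bf G ξ A - bf G ξ B = r := by
        rw [← bf_sub_right, hAB]; exact hact
      have e3 : 2 * bf G ξ A * Z - 2 * Z * bf G ξ B = 2 * Z * (bf G ξ A - bf G ξ B) := by ring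
      rw [e3, e2]
    have hR : ∑ i, ∑ j, A i * B j * (G i i + G j j - 2 * G i j)
        ≤ 2 * Z ^ 2 - 2 * bf G A B := by
      have e1 : ∀ i j, A i * B j * (G i i + G j j - 2 * G i j)
          ≤ A i * B j * 2 - 2 * (A i * G i j * B j) := by
        intro i j
        have : A i * B j * (G i i + G j j) ≤ A i * B j * 2 :=
          mul_le_mul_of_nonneg_left (by linarith [hG.diag i, hG.diag j])
            (mul_nonneg (hA0 i) (hB0 j))
        have e5 : A i * B j * (G i i + G j j - 2 * G i j)
          = A i * B j * (G i i + G j j) - 2 * (A i * G i j * B j) := by ring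
        rw [e5]; linarith
      calc ∑ i, ∑ j, A i * B j * (G i i + G j j - 2 * G i j)
          ≤ ∑ i, ∑ j, (A i * B j * 2 - 2 * (A i * G i j * B j)) :=
            Finset.sum_le_sum fun i _ => Finset.sum_le_sum fun j _ => e1 i j
        _ = 2 * Z ^ 2 - 2 * bf G A B := by
            simp only [Finset.sum_sub_distrib, ← Finset.mul_sum, ← Finset.sum_mul]
            rw [hAs, hBs]; unfold bf; ring
    rw [hL] at h2
    linarith
  have hq : 4 * bf G A B = bf G a a - r := by
    rw [← hABa, ← hact, ← hAB]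
    simp only [bf_add_left, bf_add_right, bf_sub_left, bf_sub_right]
    rw [bf_comm hG.symm B A]; ring
  refine ⟨by linarith, ?_, hZ0⟩
  -- r ≤ (2Z)^2
  have hle : ∀ x y : ι → ℝ, |bf G x y| ≤ (∑ i, |x i|) * (∑ j, |y j|) := by
    intro x y
    unfold bf
    calc |∑ i, ∑ j, x i * G i j * y j| ≤ ∑ i, |∑ j, x i * G i j * y j| :=
          Finset.abs_sum_le_sum_abs _ _
      _ ≤ ∑ i, ∑ j, |x i * G i j * y j| :=
          Finset.sum_le_sum fun i _ => Finset.abs_sum_le_sum_abs _ _
      _ ≤ ∑ i, ∑ j, |x i| * |y j| := by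
          refine Finset.sum_le_sum fun i _ => Finset.sum_le_sum fun j _ => ?_
          rw [abs_mul, abs_mul]
          have := hG.abs_le i j
          have h3 : |x i| * |G i j| ≤ |x i| * 1 := mul_le_mul_of_nonneg_left this (abs_nonneg _)
          have h4 : |x i| * |G i j| * |y j| ≤ |x i| * 1 * |y j| :=
            mul_le_mul_of_nonneg_right h3 (abs_nonneg _)
          linarith
      _ = (∑ i, |x i|) * (∑ j, |y j|) := by rw [Finset.sum_mul_sum]
  have h5 : ∑ i, |(A - B) i| ≤ 2 * Z := by
    calc ∑ i, |(A - B) i| ≤ ∑ i, (A i + B i) := by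
          refine Finset.sum_le_sum fun i _ => ?_
          rw [Pi.sub_apply]
          calc |A i - B i| ≤ |A i| + |B i| := abs_sub _ _
            _ = A i + B i := by rw [abs_of_nonneg (hA0 i), abs_of_nonneg (hB0 i)]
      _ = 2 * Z := by rw [Finset.sum_add_distrib, hAs, hBs]; ring
  have h6 := hle (A - B) (A - B)
  rw [hAB, hact] at h6
  rw [hAB] at h5
  have h7 : 0 ≤ ∑ i, |ξ i| := Finset.sum_nonneg fun i _ => abs_nonneg _
  calc r ≤ |r| := le_abs_self r
    _ ≤ (∑ i, |ξ i|) * (∑ i, |ξ i|) := h6
    _ ≤ (2 * Z) * (2 * Z) := mul_le_mul h5 h5 h7 (by linarith)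
    _ = (2 * Z) ^ 2 := by ring

end Pool.Agent.helper52.Skel
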