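import Pool.Agent.helper52.Skel.Main

set_option autoImplicit false

namespace Pool.Agent.helper52.Skel

open Finset Filter Topology

variable {ι : Type} [Fintype ι] [DecidableEq ι] {κ : Type} [Fintype κ] [DecidableEq κ]

omit [DecidableEq ι] in
theorem continuous_bf_fun {X : Type*} [TopologicalSpace X] (F : X → ι → ι → ℝ) (g h : X → ι → ℝ)
    (hF : Continuous F) (hg : Continuous g) (hh : Continuous h) :
    Continuous fun x => bf (F x) (g x) (h x) := by
  unfold bf
  refine continuous_finsetSum _ fun i _ => continuous_finsetSum _ fun j _ => ?_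
  exact (((continuous_apply i).comp hg).mul
    ((continuous_apply j).comp ((continuous_apply i).comp hF))).mul ((continuous_apply j).comp hh)

theorem isCompact_feas : IsCompact {G : ι → ι → ℝ | Feas G} := by
  refine IsCompact.of_isClosed_subset (isCompact_Icc (a := fun _ _ => (-1 : ℝ)) (b := fun _ _ => 1)) ?_ ?_
  · have : {G : ι → ι → ℝ | Feas G} = (⋂ i, ⋂ j, {G : ι → ι → ℝ | G i j = G j i}) ∩
        (⋂ x : ι → ℝ, {G : ι → ι → ℝ | 0 ≤ bf G x x}) ∩ ⋂ i, {G : ι → ι → ℝ | G i i ≤ 1} := by
      ext G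
      simp only [Set.mem_ofPred_eq, Set.mem_inter_iff, Set.mem_iInter]
      exact ⟨fun h => ⟨⟨h.symm, h.psd⟩, h.diag⟩, fun h => ⟨h.1.1, h.1.2, h.2⟩⟩
    rw [this]
    refine ((isClosed_iInter fun i => isClosed_iInter fun j => ?_).inter
      (isClosed_iInter fun x => ?_)).inter (isClosed_iInter fun i => ?_)
    · exact isClosed_eq ((continuous_apply j).comp (continuous_apply i))
        ((continuous_apply i).comp (continuous_apply j))
    · exact isClosed_le continuous_const
        (continuous_bf_fun _ _ _ continuous_id continuous_const continuous_const)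
    · exact isClosed_le ((continuous_apply i).comp (continuous_apply i)) continuous_const
  · intro G hG
    rw [Set.mem_Icc]
    constructor
    · intro i j; exact (abs_le.mp (Feas.abs_le hG i j)).1
    · intro i j; exact (abs_le.mp (Feas.abs_le hG i j)).2

omit [DecidableEq ι] in
theorem isCompact_mu (n : ℕ) :
    IsCompact {μ : ι → ℝ | (∀ i, 0 ≤ μ i) ∧ (∀ i, μ i ≤ 1) ∧ ∑ i, μ i = n} := by
  refine IsCompact.of_isClosed_subset (isCompact_Icc (a := fun _ => (0 : ℝ)) (b := fun _ => 1)) ?_ ?_
  · have : {μ : ι → ℝ | (∀ i, 0 ≤ μ i) ∧ (∀ i, μ i ≤ 1) ∧ ∑ i, μ i = n}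
        = (⋂ i, {μ : ι → ℝ | 0 ≤ μ i}) ∩ ((⋂ i, {μ : ι → ℝ | μ i ≤ 1}) ∩
          {μ : ι → ℝ | ∑ i, μ i = n}) := by
      ext μ; simp only [Set.mem_ofPred_eq, Set.mem_inter_iff, Set.mem_iInter]
    rw [this]
    refine (isClosed_iInter fun i => ?_).inter ((isClosed_iInter fun i => ?_).inter ?_)
    · exact isClosed_le continuous_const (continuous_apply i)
    · exact isClosed_le (continuous_apply i) continuous_const
    · exact isClosed_eq (continuous_finsetSum _ fun i _ => continuous_apply i) continuous_const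
  · intro μ hμ
    exact ⟨fun i => hμ.1 i, fun i => hμ.2.1 i⟩

/-- a theorem of alternatives for convex sets -/
theorem alternative (T : Set (κ → ℝ)) (hT : Convex ℝ T) (h0 : (0 : κ → ℝ) ∈ T)
    (hdisj : ∀ y ∈ T, ∃ k, y k ≤ 0) :
    ∃ p : κ → ℝ, (∀ k, 0 ≤ p k) ∧ ∑ k, p k = 1 ∧ ∀ y ∈ T, ∑ k, p k * y k ≤ 0 := by
  have hPconv : Convex ℝ {y : κ → ℝ | ∀ k, 0 < y k} := by
    intro x hx y hy a b ha hb hab k
    simp only [Pi.add_apply, Pi.smul_apply, smul_eq_mul]
    rcases eq_or_lt_of_le ha with ha0 | ha0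
    · have : b = 1 := by linarith
      subst this; rw [← ha0]
      have := hy k
      linarith
    · have h1 : 0 < a * x k := mul_pos ha0 (hx k)
      have h2 : 0 ≤ b * y k := mul_nonneg hb (hy k).le
      linarith
  have hPopen : IsOpen {y : κ → ℝ | ∀ k, 0 < y k} := by
    have : {y : κ → ℝ | ∀ k, 0 < y k} = ⋂ k, {y : κ → ℝ | 0 < y k} := by
      ext y; simp
    rw [this]
    exact isOpen_iInter_of_finite fun k => isOpen_lt continuous_const (continuous_apply k)
  have hdis : Disjoint {y : κ → ℝ | ∀ k, 0 < y k} T := by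
    rw [Set.disjoint_left]
    intro y hy hyT
    obtain ⟨k, hk⟩ := hdisj y hyT
    exact absurd (hy k) (not_lt.mpr hk)
  obtain ⟨f, u, hf1, hf2⟩ := geometric_hahn_banach_open hPconv hPopen hT hdis
  have hu0 : u ≤ 0 := by simpa using hf2 0 h0
  have hf_one : f (fun _ => 1) < u := hf1 _ (fun k => one_pos)
  have hf_one0 : f (fun _ => 1) < 0 := lt_of_lt_of_le hf_one hu0
  have hu1 : 0 ≤ u := by
    by_contra hcon
    push Not at hcon
    have hε : 0 < u / f (fun _ => 1) := div_pos_of_neg_of_neg hcon hf_one0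
    have h1 := hf1 ((u / f (fun _ => 1)) • (fun _ => (1:ℝ))) (fun k => by simpa using hε)
    rw [map_smul, smul_eq_mul, div_mul_cancel₀ _ hf_one0.ne] at h1
    exact lt_irrefl _ h1
  have hsum : ∀ y : κ → ℝ, f y = ∑ k, y k * f (Pi.single k 1) := by
    intro y
    have : y = ∑ k, y k • (Pi.single k (1:ℝ) : κ → ℝ) := by
      funext j
      simp [Finset.sum_apply, Pi.single_apply]
    conv_lhs => rw [this]
    simp [map_sum]
  have hneg : ∀ k, f (Pi.single k 1) ≤ 0 := by
    intro k
    by_contra hcon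
    push Not at hcon
    -- y = 1 + t single
    set t := -f (fun _ => 1) / f (Pi.single k 1) with ht
    have htpos : 0 < t := div_pos (by linarith) hcon
    have h1 := hf1 ((fun _ => (1:ℝ)) + t • (Pi.single k (1:ℝ) : κ → ℝ)) (fun j => by
      simp only [Pi.add_apply, Pi.smul_apply, smul_eq_mul, Pi.single_apply]
      split_ifs <;> linarith)
    rw [map_add, map_smul, smul_eq_mul, ht, div_mul_cancel₀ _ hcon.ne'] at h1
    linarith
  obtain ⟨s, hs⟩ : ∃ s : ℝ, s = -f (fun _ => 1) := ⟨_, rfl⟩
  have hspos : 0 < s := by rw [hs]; linarith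
  have hssum : ∑ k, -f (Pi.single k 1) = s := by
    rw [hs, hsum]; simp
  refine ⟨fun k => -f (Pi.single k 1) / s, fun k => div_nonneg (by linarith [hneg k]) hspos.le, ?_, ?_⟩
  · rw [← Finset.sum_div, hssum, div_self hspos.ne']
  · intro y hy
    have h1 : 0 ≤ f y := le_trans hu1 (hf2 y hy)
    rw [hsum] at h1
    have : ∑ k, -f (Pi.single k 1) / s * y k = -(∑ k, y k * f (Pi.single k 1)) / s := by
      rw [neg_div, Finset.sum_div, ← Finset.sum_neg_distrib]
      refine Finset.sum_congr rfl fun k _ => by ring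
    rw [this]
    exact div_nonpos_of_nonpos_of_nonneg (by linarith) hspos.le

end Pool.Agent.helper52.Skel
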