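import Pool.Agent.helper52.Skel.Ext

set_option autoImplicit false

namespace Pool.Agent.helper52.Skel

open Finset Filter Topology

variable {ι : Type} [Fintype ι] [DecidableEq ι]

omit [DecidableEq ι] in
theorem bf_null {G : ι → ι → ℝ} (hG : Feas G) (x z : ι → ℝ) (hz : bf G z z = 0) :
    bf G x z = 0 := by
  have h : ∀ t : ℝ, 0 ≤ bf G x x + 2 * t * bf G x z := by
    intro t
    have h1 := hG.psd (x + t • z)
    rw [bf_add_left, bf_add_right, bf_add_right, bf_smul_left, bf_smul_left, bf_smul_right,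
      bf_smul_right, bf_comm hG.symm z x, hz] at h1
    linarith
  by_contra hne
  have h1 := h (-(bf G x x + 1) / (2 * bf G x z))
  have h2 : 2 * (-(bf G x x + 1) / (2 * bf G x z)) * bf G x z = -(bf G x x + 1) := by
    field_simp
  rw [h2] at h1
  linarith

omit [DecidableEq ι] in
theorem bf_sub_sub {G : ι → ι → ℝ} (hG : Feas G) (x z : ι → ℝ) :
    bf G (x - z) (x - z) = bf G x x - 2 * bf G x z + bf G z z := by
  rw [bf_sub_left, bf_sub_right, bf_sub_right, bf_comm hG.symm z x]; ring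

/-- The extremal argument: if the bound fails for interior `μ` only, we get a contradiction. -/
theorem extremal (n : ℕ) (hn : 2 ≤ n) (hN : n + 2 ≤ Fintype.card ι)
    (hbd : ∀ (G : ι → ι → ℝ), Feas G → ∀ μ : ι → ℝ, (∀ i, 0 ≤ μ i) → (∀ i, μ i ≤ 1) →
      ∑ i, μ i = n → (∃ i, μ i = 0 ∨ μ i = 1) →
      ∃ I : Finset ι, I.card = n ∧ bf G (ind I - μ) (ind I - μ) * (Fintype.card ι - 1)
        ≤ n * (Fintype.card ι - n))
    (G : ι → ι → ℝ) (hG : Feas G) (μ : ι → ℝ) (h0 : ∀ i, 0 ≤ μ i) (h1 : ∀ i, μ i ≤ 1)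
    (hsum : ∑ i, μ i = n) :
    ∃ I : Finset ι, I.card = n ∧ bf G (ind I - μ) (ind I - μ) * (Fintype.card ι - 1)
        ≤ n * (Fintype.card ι - n) := by
  classical
  by_contra hfail
  push Not at hfail
  obtain ⟨N, hNdef⟩ : ∃ N : ℝ, N = (Fintype.card ι : ℝ) := ⟨_, rfl⟩
  rw [← hNdef] at hfail hbd
  have hN2 : (n : ℝ) + 2 ≤ N := by rw [hNdef]; exact_mod_cast hN
  have hn2 : (2 : ℝ) ≤ n := by exact_mod_cast hn
  -- index type of n-subsets
  let σ := {I : Finset ι // I.card = n}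
  have hσne : Nonempty σ := by
    obtain ⟨I, hI, hI2⟩ := Finset.exists_subset_card_eq (s := (Finset.univ : Finset ι)) (n := n)
      (by rw [Finset.card_univ]; omega)
    exact ⟨⟨I, hI2⟩⟩
  let Ψ : (ι → ι → ℝ) × (ι → ℝ) → ℝ := fun x =>
    (Finset.univ : Finset σ).inf' Finset.univ_nonempty
      (fun I => bf x.1 (ind I.1 - x.2) (ind I.1 - x.2))
  have hΨcont : Continuous Ψ := by
    apply Continuous.finset_inf'_apply
    intro I _
    apply continuous_bf_fun
    · exact continuous_fst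
    · exact continuous_const.sub continuous_snd
    · exact continuous_const.sub continuous_snd
  let K : Set ((ι → ι → ℝ) × (ι → ℝ)) := {G : ι → ι → ℝ | Feas G} ×ˢ
    {μ : ι → ℝ | (∀ i, 0 ≤ μ i) ∧ (∀ i, μ i ≤ 1) ∧ ∑ i, μ i = n}
  have hK : IsCompact K := isCompact_feas.prod (isCompact_mu n)
  have hKne : K.Nonempty := ⟨(G, μ), hG, h0, h1, hsum⟩
  obtain ⟨⟨Gs, μs⟩, ⟨hGs, hμs0, hμs1, hμss⟩, hmax⟩ := hK.exists_isMaxOn hKne hΨcont.continuousOn
  simp only [Set.mem_ofPred_eq] at hGs hμs0 hμs1 hμss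
  obtain ⟨r, hr⟩ : ∃ r, r = Ψ (Gs, μs) := ⟨_, rfl⟩
  have hrmin : ∀ J : Finset ι, J.card = n → r ≤ bf Gs (ind J - μs) (ind J - μs) := by
    intro J hJ
    rw [hr]
    exact Finset.inf'_le (s := (Finset.univ : Finset σ))
      (fun I : σ => bf Gs (ind I.1 - μs) (ind I.1 - μs)) (Finset.mem_univ (⟨J, hJ⟩ : σ))
  have hrbig : (n : ℝ) * (N - n) < r * (N - 1) := by
    have h2 : Ψ (G, μ) ≤ r := by rw [hr]; exact hmax (Set.mk_mem_prod hG ⟨h0, h1, hsum⟩)
    obtain ⟨I, _, hI⟩ := Finset.exists_mem_eq_inf' (s := (Finset.univ : Finset σ))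
      Finset.univ_nonempty (fun I : σ => bf G (ind I.1 - μ) (ind I.1 - μ))
    have h3 : Ψ (G, μ) = bf G (ind I.1 - μ) (ind I.1 - μ) := hI
    have h4 := hfail I.1 I.2
    rw [← h3] at h4
    have h5 : Ψ (G, μ) * (N - 1) ≤ r * (N - 1) := mul_le_mul_of_nonneg_right h2 (by linarith)
    linarith
  have hnot : ∀ J : Finset ι, J.card = n →
      (n : ℝ) * (N - n) < bf Gs (ind J - μs) (ind J - μs) * (N - 1) := by
    intro J hJ
    have := mul_le_mul_of_nonneg_right (hrmin J hJ) (show (0:ℝ) ≤ N - 1 by linarith)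
    linarith
  have hint0 : ∀ i, 0 < μs i := by
    intro i
    refine lt_of_le_of_ne (hμs0 i) fun h => ?_
    obtain ⟨I, hI, hI2⟩ := hbd Gs hGs μs hμs0 hμs1 hμss ⟨i, Or.inl h.symm⟩
    exact absurd hI2 (not_le.mpr (hnot I hI))
  have hint1 : ∀ i, μs i < 1 := by
    intro i
    refine lt_of_le_of_ne (hμs1 i) fun h => ?_
    obtain ⟨I, hI, hI2⟩ := hbd Gs hGs μs hμs0 hμs1 hμss ⟨i, Or.inr h⟩
    exact absurd hI2 (not_le.mpr (hnot I hI))
  -- active sets
  let κ := {k : σ // bf Gs (ind k.1 - μs) (ind k.1 - μs) = r}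
  let ξ : κ → ι → ℝ := fun k => ind k.1.1 - μs
  have hκne : Nonempty κ := by
    obtain ⟨I, _, hI⟩ := Finset.exists_mem_eq_inf' (s := (Finset.univ : Finset σ))
      Finset.univ_nonempty (fun I : σ => bf Gs (ind I.1 - μs) (ind I.1 - μs))
    exact ⟨⟨I, by rw [hr]; exact hI.symm⟩⟩
  have hξact : ∀ k : κ, bf Gs (ξ k) (ξ k) = r := fun k => k.2
  -- the convex set of directional derivatives
  let T : Set (κ → ℝ) := {y | ∃ (G' : ι → ι → ℝ) (η : ι → ℝ), Feas G' ∧ ∑ i, η i = 0 ∧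
    ∀ k, y k = bf G' (ξ k) (ξ k) - r - 2 * bf Gs η (ξ k)}
  have hTconv : Convex ℝ T := by
    rintro y ⟨G1, η1, hG1, hη1, hy⟩ z ⟨G2, η2, hG2, hη2, hz⟩ a b ha hb hab
    refine ⟨a • G1 + b • G2, a • η1 + b • η2, convex_feas hG1 hG2 ha hb hab, ?_, ?_⟩
    · simp only [Pi.add_apply, Pi.smul_apply, smul_eq_mul]
      rw [Finset.sum_add_distrib, ← Finset.mul_sum, ← Finset.mul_sum, hη1, hη2]; ring
    · intro k
      rw [bf_add_mat, bf_smul_mat, bf_smul_mat, bf_add_left, bf_smul_left, bf_smul_left]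
      simp only [Pi.add_apply, Pi.smul_apply, smul_eq_mul]
      rw [hy, hz]
      have : r = a * r + b * r := by rw [← add_mul, hab, one_mul]
      linear_combination this
  have hT0 : (0 : κ → ℝ) ∈ T := by
    refine ⟨Gs, 0, hGs, by simp, fun k => ?_⟩
    rw [hξact]
    have : bf Gs 0 (ξ k) = 0 := by simp [bf]
    rw [this]; simp
  have hTdisj : ∀ y ∈ T, ∃ k, y k ≤ 0 := by
    rintro y ⟨G', η, hG', hη, hy⟩
    by_contra hcon
    push Not at hcon
    -- perturb
    let Gε : ℝ → ι → ι → ℝ := fun ε => (1 - ε) • Gs + ε • G'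
    let με : ℝ → ι → ℝ := fun ε => μs + ε • η
    have hGc : Continuous Gε := by
      apply Continuous.add
      · exact (continuous_const.sub continuous_id).smul continuous_const
      · exact continuous_id.smul continuous_const
    have hμc : Continuous με := by
      apply Continuous.add continuous_const
      exact continuous_id.smul continuous_const
    have hev : ∀ᶠ ε in 𝓝[>] (0:ℝ), ∀ J : σ, r < bf (Gε ε) (ind J.1 - με ε) (ind J.1 - με ε) := by
      rw [eventually_all]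
      intro J
      by_cases hJ : bf Gs (ind J.1 - μs) (ind J.1 - μs) = r
      · -- active
        set x := ind J.1 - μs with hx
        have hyJ := hcon ⟨J, hJ⟩
        rw [hy] at hyJ
        have hyJ' : 0 < bf G' x x - r - 2 * bf Gs η x := hyJ
        have hexp : ∀ ε : ℝ, bf (Gε ε) (ind J.1 - με ε) (ind J.1 - με ε)
            = r + ε * ((bf G' x x - r - 2 * bf Gs η x) + ε * (2 * bf Gs η x + bf Gs η η
              - 2 * bf G' η x) + ε ^ 2 * (bf G' η η - bf Gs η η)) := by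
          intro ε
          have e1 : ind J.1 - με ε = x - ε • η := by
            funext i; simp only [hx, με, Pi.sub_apply, Pi.add_apply, Pi.smul_apply]; ring
          rw [e1]
          simp only [Gε]
          rw [bf_add_mat, bf_smul_mat, bf_smul_mat]
          simp only [bf_sub_left, bf_sub_right, bf_smul_left, bf_smul_right]
          rw [bf_comm hGs.symm x η, bf_comm hG'.symm x η, hJ]
          ring
        have hcont : Continuous fun ε : ℝ => (bf G' x x - r - 2 * bf Gs η x)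
            + ε * (2 * bf Gs η x + bf Gs η η - 2 * bf G' η x)
            + ε ^ 2 * (bf G' η η - bf Gs η η) := by fun_prop
        have hpos : ∀ᶠ ε in 𝓝 (0:ℝ), 0 < (bf G' x x - r - 2 * bf Gs η x)
            + ε * (2 * bf Gs η x + bf Gs η η - 2 * bf G' η x)
            + ε ^ 2 * (bf G' η η - bf Gs η η) := by
          apply hcont.continuousAt.eventually_const_lt
          simpa using hyJ'
        filter_upwards [nhdsWithin_le_nhds hpos, self_mem_nhdsWithin] with ε hε hε0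
        rw [hexp]
        have := mul_pos (Set.mem_Ioi.mp hε0) hε
        linarith
      · have hgt : r < bf Gs (ind J.1 - μs) (ind J.1 - μs) :=
          lt_of_le_of_ne (hrmin J.1 J.2) (Ne.symm hJ)
        have hcont : Continuous fun ε : ℝ => bf (Gε ε) (ind J.1 - με ε) (ind J.1 - με ε) :=
          continuous_bf_fun _ _ _ hGc (continuous_const.sub hμc) (continuous_const.sub hμc)
        have h2 : ∀ᶠ ε in 𝓝 (0:ℝ), r < bf (Gε ε) (ind J.1 - με ε) (ind J.1 - με ε) := by
          apply hcont.continuousAt.eventually_const_lt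
          have e1 : Gε 0 = Gs := by simp [Gε]
          have e2 : με 0 = μs := by simp [με]
          beta_reduce
          rw [e1, e2]; exact hgt
        exact nhdsWithin_le_nhds h2
    have hev2 : ∀ᶠ ε in 𝓝[>] (0:ℝ), ∀ i, 0 ≤ με ε i ∧ με ε i ≤ 1 := by
      rw [eventually_all]
      intro i
      have hc : Continuous fun ε => με ε i := (continuous_apply i).comp hμc
      have e0 : με 0 i = μs i := by simp [με]
      have h2 : ∀ᶠ ε in 𝓝 (0:ℝ), 0 < με ε i := by
        apply hc.continuousAt.eventually_const_lt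
        beta_reduce
        rw [e0]; exact hint0 i
      have h3 : ∀ᶠ ε in 𝓝 (0:ℝ), με ε i < 1 := by
        apply hc.continuousAt.eventually_lt_const
        beta_reduce
        rw [e0]; exact hint1 i
      filter_upwards [nhdsWithin_le_nhds h2, nhdsWithin_le_nhds h3] with ε h4 h5
      exact ⟨h4.le, h5.le⟩
    have hev3 : ∀ᶠ ε in 𝓝[>] (0:ℝ), ε < 1 := by
      apply nhdsWithin_le_nhds
      exact eventually_lt_nhds one_pos
    obtain ⟨ε, ⟨hε1, hε2, hε3⟩, hε0⟩ :=
      ((hev.and (hev2.and hev3)).and self_mem_nhdsWithin).exists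
    have hε0' : 0 < ε := hε0
    have hmem : (Gε ε, με ε) ∈ K := by
      refine Set.mk_mem_prod ?_ ⟨fun i => (hε2 i).1, fun i => (hε2 i).2, ?_⟩
      · exact convex_feas hGs hG' (by linarith) hε0'.le (by ring)
      · simp only [με, Pi.add_apply, Pi.smul_apply, smul_eq_mul]
        rw [Finset.sum_add_distrib, ← Finset.mul_sum, hη, hμss]; ring
    have h2 : Ψ (Gε ε, με ε) ≤ Ψ (Gs, μs) := hmax hmem
    have h3 : r < Ψ (Gε ε, με ε) := by
      simp only [Ψ]
      rw [Finset.lt_inf'_iff]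
      intro J _
      exact hε1 J
    rw [← hr] at h2
    linarith
  obtain ⟨p, hp0, hp1, hp⟩ := alternative T hTconv hT0 hTdisj
  have hK1 : ∀ (G' : ι → ι → ℝ) (η : ι → ℝ), Feas G' → ∑ i, η i = 0 →
      ∑ k, p k * bf G' (ξ k) (ξ k) - 2 * ∑ k, p k * bf Gs η (ξ k) ≤ r := by
    intro G' η hG' hη
    have h2 := hp (fun k => bf G' (ξ k) (ξ k) - r - 2 * bf Gs η (ξ k)) ⟨G', η, hG', hη, fun _ => rfl⟩
    have e1 : ∑ k, p k * (bf G' (ξ k) (ξ k) - r - 2 * bf Gs η (ξ k))
        = ∑ k, p k * bf G' (ξ k) (ξ k) - 2 * ∑ k, p k * bf Gs η (ξ k) - r := by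
      have : ∀ k, p k * (bf G' (ξ k) (ξ k) - r - 2 * bf Gs η (ξ k))
          = p k * bf G' (ξ k) (ξ k) - 2 * (p k * bf Gs η (ξ k)) - p k * r := fun k => by ring
      simp only [this]
      rw [Finset.sum_sub_distrib, Finset.sum_sub_distrib, ← Finset.mul_sum, ← Finset.sum_mul, hp1]
      ring
    rw [e1] at h2
    linarith
  -- ζ
  obtain ⟨ζ, hζ⟩ : ∃ ζ : ι → ℝ, ζ = ∑ k, p k • ξ k := ⟨_, rfl⟩
  have hbfζl : ∀ (G' : ι → ι → ℝ) (x : ι → ℝ), bf G' ζ x = ∑ k, p k * bf G' (ξ k) x := by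
    intro G' x
    rw [hζ, bf_sum_left]
    refine Finset.sum_congr rfl fun k _ => by rw [bf_smul_left]
  have hξs : ∀ k, ∑ i, ξ k i = 0 := by
    intro k
    simp only [ξ, Pi.sub_apply]
    rw [Finset.sum_sub_distrib, sum_ind, k.1.2, hμss]; ring
  have hζs : ∑ i, ζ i = 0 := by
    rw [hζ]
    simp only [Finset.sum_apply, Pi.smul_apply, smul_eq_mul]
    rw [Finset.sum_comm]
    apply Finset.sum_eq_zero
    intro k _
    rw [← Finset.mul_sum, hξs]; ring
  have hζζ : bf Gs ζ ζ = 0 := by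
    have h2 := hK1 Gs (-ζ) hGs (by simp [hζs])
    have e1 : ∑ k, p k * bf Gs (ξ k) (ξ k) = r := by
      simp only [hξact]; rw [← Finset.sum_mul, hp1, one_mul]
    have e2 : ∑ k, p k * bf Gs (-ζ) (ξ k) = - bf Gs ζ ζ := by
      rw [hbfζl Gs ζ, ← Finset.sum_neg_distrib]
      refine Finset.sum_congr rfl fun k _ => ?_
      have : -ζ = (-1 : ℝ) • ζ := by simp
      rw [this, bf_smul_left, bf_comm hGs.symm ζ (ξ k)]; ring
    rw [e1, e2] at h2
    have h3 := hGs.psd ζ
    linarith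
  -- new μ
  obtain ⟨μ', hμ'⟩ : ∃ μ' : ι → ℝ, μ' = μs + ζ := ⟨_, rfl⟩
  have hsame : ∀ x : ι → ℝ, bf Gs (x - μ') (x - μ') = bf Gs (x - μs) (x - μs) := by
    intro x
    have e1 : x - μ' = (x - μs) - ζ := by rw [hμ']; abel
    rw [e1, bf_sub_sub hGs, hζζ, bf_null hGs (x - μs) ζ hζζ]
    ring
  have hμ'eq : ∀ i, μ' i = ∑ k, p k * ind k.1.1 i := by
    intro i
    rw [hμ', hζ]
    simp only [Pi.add_apply, Finset.sum_apply, Pi.smul_apply, smul_eq_mul, ξ, Pi.sub_apply, mul_sub]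
    rw [Finset.sum_sub_distrib, ← Finset.sum_mul, hp1]; ring
  refine core (κ := κ) n (fun k => k.1.1) (fun k => k.1.2) hn hN Gs hGs p hp0 hp1 μ' hμ'eq r
    (by rw [← hNdef]; exact hrbig) ?_ ?_ ?_
  · intro J hJ
    rw [hsame]; exact hrmin J hJ
  · intro k
    rw [hsame]; exact k.2
  · intro G' hG'
    have h2 := hK1 G' 0 hG' (by simp)
    have e0 : ∑ k, p k * bf Gs 0 (ξ k) = 0 := by
      apply Finset.sum_eq_zero; intro k _; simp [bf]
    rw [e0] at h2
    have e1 : ∀ k : κ, p k * bf G' (ind k.1.1 - μ') (ind k.1.1 - μ')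
        = p k * bf G' (ξ k) (ξ k) - 2 * (p k * bf G' (ξ k) ζ) + p k * bf G' ζ ζ := by
      intro k
      have e2 : ind k.1.1 - μ' = ξ k - ζ := by rw [hμ']; simp only [ξ]; abel
      rw [e2, bf_sub_sub hG']; ring
    simp only [e1]
    rw [Finset.sum_add_distrib, Finset.sum_sub_distrib, ← Finset.mul_sum, ← Finset.sum_mul, hp1,
      ← hbfζl G' ζ]
    have := hG'.psd ζ
    linarith

end Pool.Agent.helper52.Skel
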