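import Pool.Agent.helper52.Skel.Induct

set_option autoImplicit false

namespace Pool.Agent.helper52.Skel

open Finset

variable {E : Type} [NormedAddCommGroup E] [InnerProductSpace ℝ E]

theorem bf_gram {ι : Type} [Fintype ι] (v : ι → E) (x : ι → ℝ) :
    bf (fun i j => inner ℝ (v i) (v j)) x x = ‖∑ i, x i • v i‖ ^ 2 := by
  rw [← real_inner_self_eq_norm_sq, sum_inner]
  unfold bf
  refine Finset.sum_congr rfl fun i _ => ?_
  rw [inner_sum]
  refine Finset.sum_congr rfl fun j _ => ?_
  rw [real_inner_smul_left, real_inner_smul_right]; ring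

theorem feas_gram {ι : Type} [Fintype ι] (v : ι → E) (hv : ∀ i, ‖v i‖ ≤ 1) :
    Feas (fun i j => inner ℝ (v i) (v j) : ι → ι → ℝ) := by
  refine ⟨fun i j => real_inner_comm _ _, fun x => ?_, fun i => ?_⟩
  · rw [bf_gram]; positivity
  · rw [real_inner_self_eq_norm_sq]
    have := hv i
    have := norm_nonneg (v i)
    nlinarith

theorem main (N : ℕ) : ∀ n : ℕ, 1 ≤ n → n ≤ N → ∀ v : Fin N → E, (∀ i, ‖v i‖ ≤ 1) →
    ∀ w : Fin N → ℝ, (∀ i, 0 ≤ w i) → ∑ i, w i = 1 →
    ∃ I : Finset (Fin N), I.card = n ∧ ∃ y ∈ convexHull ℝ (v '' (I : Set (Fin N))),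
      ‖∑ i, w i • v i - y‖ ^ 2 * (n * ((N : ℝ) - 1)) ≤ (N : ℝ) - n := by
  induction N with
  | zero => intro n h1 h2; omega
  | succ M ih =>
    intro n hn1 hn v hv w hw0 hw1
    have hnR : (1 : ℝ) ≤ n := by exact_mod_cast hn1
    have hnpos : (0 : ℝ) < n := by linarith
    -- n = M + 1
    rcases Nat.eq_or_lt_of_le hn with hnN | hnN
    · refine ⟨Finset.univ, by rw [Finset.card_univ, Fintype.card_fin, hnN],
        ∑ i, w i • v i, ?_, ?_⟩
      · exact mem_convexHull_of_exists_fintype w v hw0 hw1 (fun i => by simp) rfl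
      · rw [sub_self, norm_zero, hnN]; simp
    have hnM : n ≤ M := by omega
    have hnMR : (n : ℝ) ≤ M := by exact_mod_cast hnM
    by_cases hall : ∀ i, n * w i ≤ 1
    · -- hypersimplex
      obtain ⟨I, hI, hb⟩ := hs (M + 1) n hn (fun i j => inner ℝ (v i) (v j)) (feas_gram v hv)
        (fun i => n * w i) (fun i => mul_nonneg hnpos.le (hw0 i)) hall
        (by rw [← Finset.mul_sum, hw1, mul_one])
      refine ⟨I, hI, ∑ i, ((n : ℝ)⁻¹ * ind I i) • v i, ?_, ?_⟩
      · have e1 : ∑ i, ((n : ℝ)⁻¹ * ind I i) • v i = ∑ i ∈ I, (n : ℝ)⁻¹ • v i := by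
          rw [← Finset.sum_filter_add_sum_filter_not Finset.univ (fun i => i ∈ I)]
          have e2 : ∑ i ∈ Finset.univ.filter (fun i => ¬ i ∈ I), ((n : ℝ)⁻¹ * ind I i) • v i = 0 := by
            apply Finset.sum_eq_zero
            intro i hi
            rw [Finset.mem_filter] at hi
            simp [ind, hi.2]
          rw [e2, add_zero]
          have e3 : Finset.univ.filter (fun i => i ∈ I) = I := by ext; simp
          rw [e3]
          refine Finset.sum_congr rfl fun i hi => ?_
          simp [ind, hi]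
        rw [e1]
        apply (convex_convexHull ℝ _).sum_mem
        · intro i _; positivity
        · rw [Finset.sum_const, hI, nsmul_eq_mul]; field_simp
        · intro i hi
          exact subset_convexHull ℝ _ (Set.mem_image_of_mem v hi)
      · rw [bf_gram] at hb
        have e1 : ∑ i, (ind I - fun i => n * w i) i • v i
            = -((n : ℝ) • (∑ i, w i • v i - ∑ i, ((n : ℝ)⁻¹ * ind I i) • v i)) := by
          rw [smul_sub, Finset.smul_sum, Finset.smul_sum, neg_sub, ← Finset.sum_sub_distrib]
          refine Finset.sum_congr rfl fun i _ => ?_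
          simp only [Pi.sub_apply]
          rw [sub_smul, smul_smul, smul_smul, ← mul_assoc, mul_inv_cancel₀ hnpos.ne', one_mul]
        rw [e1, norm_neg, norm_smul, mul_pow, Real.norm_of_nonneg hnpos.le] at hb
        generalize ‖∑ i, w i • v i - ∑ i, ((n : ℝ)⁻¹ * ind I i) • v i‖ ^ 2 = B at hb ⊢
        have h2 : (n : ℝ) * (B * (n * (((M + 1 : ℕ) : ℝ) - 1))) ≤ n * (((M + 1 : ℕ) : ℝ) - n) := by
          have e2 : (n : ℝ) * (B * (n * (((M + 1 : ℕ) : ℝ) - 1)))
            = (n : ℝ) ^ 2 * B * (((M + 1 : ℕ) : ℝ) - 1) := by ring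
          rw [e2]; exact hb
        exact le_of_mul_le_mul_left h2 hnpos
    · push Not at hall
      obtain ⟨i0, hi0⟩ := hall
      have hw_le : w i0 ≤ 1 := by
        rw [← hw1]; exact Finset.single_le_sum (fun i _ => hw0 i) (Finset.mem_univ i0)
      have hn2 : 2 ≤ n := by
        by_contra hcon
        have : n = 1 := by omega
        subst this
        simp at hi0
        linarith
      have hn2R : (2 : ℝ) ≤ n := by exact_mod_cast hn2
      have hsum' : w i0 + ∑ i, w (i0.succAbove i) = 1 := by
        rw [← Fin.sum_univ_succAbove w i0]; exact hw1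
      have hx : ∑ i, w i • v i = w i0 • v i0 + ∑ i, w (i0.succAbove i) • v (i0.succAbove i) :=
        Fin.sum_univ_succAbove _ i0
      have hi0n : ∀ J : Finset (Fin M), i0 ∉ J.map i0.succAboveEmb := by
        intro J; simp [Fin.succAbove_ne]
      rcases eq_or_lt_of_le hw_le with hw_eq | hw_lt
      · -- w i0 = 1
        have hz : ∀ i, w (i0.succAbove i) = 0 := by
          intro i
          have h0 : ∑ i, w (i0.succAbove i) = 0 := by linarith
          exact (Finset.sum_eq_zero_iff_of_nonneg (fun i _ => hw0 _)).mp h0 i (Finset.mem_univ i)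
        obtain ⟨J, _, hJ⟩ := Finset.exists_subset_card_eq (s := (Finset.univ : Finset (Fin M)))
          (n := n - 1) (by rw [Finset.card_univ, Fintype.card_fin]; omega)
        refine ⟨insert i0 (J.map i0.succAboveEmb), ?_, v i0, ?_, ?_⟩
        · rw [Finset.card_insert_of_notMem (hi0n J), Finset.card_map, hJ]; omega
        · apply subset_convexHull
          exact Set.mem_image_of_mem v (by simp)
        · rw [hx, hw_eq]
          simp only [hz, zero_smul, Finset.sum_const_zero, one_smul, add_zero, sub_self, norm_zero]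
          push_cast
          have : (0:ℝ) ≤ (M : ℝ) + 1 - n := by linarith
          simpa using this
      · have hpos : 0 < 1 - w i0 := by linarith
        obtain ⟨J, hJ, y, hy, hyb⟩ := ih (n - 1) (by omega) (by omega)
          (fun i => v (i0.succAbove i)) (fun i => hv _)
          (fun i => w (i0.succAbove i) / (1 - w i0)) (fun i => div_nonneg (hw0 _) hpos.le)
          (by rw [← Finset.sum_div]; rw [div_eq_one_iff_eq hpos.ne']; linarith)
        refine ⟨insert i0 (J.map i0.succAboveEmb), ?_, w i0 • v i0 + (1 - w i0) • y, ?_, ?_⟩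
        · rw [Finset.card_insert_of_notMem (hi0n J), Finset.card_map, hJ]; omega
        · apply (convex_convexHull ℝ _) _ _ (hw0 i0) hpos.le (by ring)
          · apply subset_convexHull
            exact Set.mem_image_of_mem v (by simp)
          · apply convexHull_mono _ hy
            rintro _ ⟨j, hj, rfl⟩
            refine ⟨i0.succAbove j, ?_, rfl⟩
            simp only [Finset.coe_insert, Finset.coe_map, Set.mem_insert_iff]
            right
            exact ⟨j, hj, rfl⟩
        · rw [hx]
          have e1 : w i0 • v i0 + ∑ i, w (i0.succAbove i) • v (i0.succAbove i)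
              - (w i0 • v i0 + (1 - w i0) • y)
              = (1 - w i0) • (∑ i, (w (i0.succAbove i) / (1 - w i0)) • v (i0.succAbove i) - y) := by
            rw [smul_sub, Finset.smul_sum]
            have : ∀ i, (1 - w i0) • (w (i0.succAbove i) / (1 - w i0)) • v (i0.succAbove i)
                = w (i0.succAbove i) • v (i0.succAbove i) := by
              intro i
              rw [smul_smul, mul_div_cancel₀ _ hpos.ne']
            simp only [this]
            abel
          rw [e1, norm_smul, mul_pow, Real.norm_of_nonneg hpos.le]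
          rw [Nat.cast_sub (by omega)] at hyb
          push_cast at hyb ⊢
          have hB0 : 0 ≤ ‖∑ i, (w (i0.succAbove i) / (1 - w i0)) • v (i0.succAbove i) - y‖ ^ 2 :=
            sq_nonneg _
          generalize ‖∑ i, (w (i0.succAbove i) / (1 - w i0)) • v (i0.succAbove i) - y‖ ^ 2 = B
            at hyb hB0 ⊢
          -- (1 - w)^2 n^2 ≤ (n-1)^2
          have h1 : n * (1 - w i0) ≤ n - 1 := by linarith
          have h2 : (n * (1 - w i0)) ^ 2 ≤ ((n : ℝ) - 1) ^ 2 :=
            pow_le_pow_left₀ (mul_nonneg hnpos.le hpos.le) h1 2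
          have hM2 : (2 : ℝ) ≤ M := by linarith
          -- B (n-1)(M-1) ≤ M - n + 1
          have h3 : (n * (1 - w i0)) ^ 2 * (B * (M * ((M : ℝ) - 1)))
              ≤ ((n : ℝ) - 1) ^ 2 * (B * (M * ((M : ℝ) - 1))) :=
            mul_le_mul_of_nonneg_right h2
              (mul_nonneg hB0 (mul_nonneg (by linarith) (by linarith)))
          have h4 : ((n : ℝ) - 1) * M * (B * (((n : ℝ) - 1) * ((M : ℝ) - 1)))
              ≤ ((n : ℝ) - 1) * M * ((M : ℝ) - (n - 1)) :=
            mul_le_mul_of_nonneg_left hyb (mul_nonneg (by linarith) (by linarith))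
          have h5 : ((n : ℝ) - 1) * M * ((M : ℝ) - (n - 1))
              ≤ n * ((M : ℝ) - 1) * ((M : ℝ) + 1 - n) := by
            have e2 : n * ((M : ℝ) - 1) * ((M : ℝ) + 1 - n) - ((n : ℝ) - 1) * M * ((M : ℝ) - (n - 1))
                = (M - n) * ((M : ℝ) + 1 - n) := by ring
            have e3 : 0 ≤ ((M : ℝ) - n) * ((M : ℝ) + 1 - n) := mul_nonneg (by linarith) (by linarith)
            linarith
          have h6 : (n * ((M : ℝ) - 1)) * ((1 - w i0) ^ 2 * B * (n * ((M : ℝ) + 1 - 1)))
              ≤ (n * ((M : ℝ) - 1)) * ((M : ℝ) + 1 - n) := by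
            have e2 : (n * ((M : ℝ) - 1)) * ((1 - w i0) ^ 2 * B * (n * ((M : ℝ) + 1 - 1)))
                = (n * (1 - w i0)) ^ 2 * (B * (M * ((M : ℝ) - 1))) := by ring
            have e3 : ((n : ℝ) - 1) ^ 2 * (B * (M * ((M : ℝ) - 1)))
                = ((n : ℝ) - 1) * M * (B * (((n : ℝ) - 1) * ((M : ℝ) - 1))) := by ring
            rw [e2]; linarith
          exact le_of_mul_le_mul_left h6 (mul_pos hnpos (by linarith))

theorem exists_weights {N : ℕ} (v : Fin N → E) (x : E) (hx : x ∈ convexHull ℝ (Set.range v)) :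
    ∃ w : Fin N → ℝ, (∀ i, 0 ≤ w i) ∧ ∑ i, w i = 1 ∧ ∑ i, w i • v i = x := by
  have h : convexHull ℝ (Set.range v) ⊆
      {x | ∃ w : Fin N → ℝ, (∀ i, 0 ≤ w i) ∧ ∑ i, w i = 1 ∧ ∑ i, w i • v i = x} := by
    apply convexHull_min
    · rintro _ ⟨i, rfl⟩
      refine ⟨Pi.single i 1, ?_, ?_, ?_⟩
      · intro j; rw [Pi.single_apply]; split_ifs <;> norm_num
      · simp
      · rw [Finset.sum_eq_single i] <;> simp +contextual
    · rintro x ⟨w1, h1, h2, h3⟩ y ⟨w2, h4, h5, h6⟩ a b ha hb hab
      refine ⟨fun i => a * w1 i + b * w2 i, ?_, ?_, ?_⟩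
      · intro i
        have := h1 i
        have := h4 i
        positivity
      · rw [Finset.sum_add_distrib, ← Finset.mul_sum, ← Finset.mul_sum, h2, h5]; linarith
      · simp only [add_smul, mul_smul]
        rw [Finset.sum_add_distrib, ← Finset.smul_sum, ← Finset.smul_sum, h3, h6]
  exact h hx

end Pool.Agent.helper52.Skel
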