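import Pool.Agent.helper52.Skel.Ext2

set_option autoImplicit false

namespace Pool.Agent.helper52.Skel

open Finset

theorem bf_zero {ι : Type} [Fintype ι] (G : ι → ι → ℝ) (x : ι → ℝ) (hx : ∀ i, x i = 0) :
    bf G x x = 0 := by
  unfold bf
  apply Finset.sum_eq_zero; intro i _
  apply Finset.sum_eq_zero; intro j _
  rw [hx i]; ring

theorem bf_succAbove {M : ℕ} (G : Fin (M + 1) → Fin (M + 1) → ℝ) (x : Fin (M + 1) → ℝ)
    (i0 : Fin (M + 1)) (hx : x i0 = 0) :
    bf G x x = bf (fun i j => G (i0.succAbove i) (i0.succAbove j)) (fun i => x (i0.succAbove i))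
      (fun i => x (i0.succAbove i)) := by
  unfold bf
  rw [Fin.sum_univ_succAbove _ i0]
  have h0 : ∑ j, x i0 * G i0 j * x j = 0 := by
    apply Finset.sum_eq_zero; intro j _; rw [hx]; ring
  rw [h0, zero_add]
  refine Finset.sum_congr rfl fun i _ => ?_
  rw [Fin.sum_univ_succAbove _ i0, hx]; ring

theorem feas_succAbove {M : ℕ} (G : Fin (M + 1) → Fin (M + 1) → ℝ) (hG : Feas G)
    (i0 : Fin (M + 1)) : Feas (fun i j => G (i0.succAbove i) (i0.succAbove j)) := by
  refine ⟨fun i j => hG.symm _ _, fun x => ?_, fun i => hG.diag _⟩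
  have h := hG.psd (i0.insertNth 0 x)
  rw [bf_succAbove G _ i0 (by simp)] at h
  simpa using h

/-- the sharp covering bound on the hypersimplex -/
theorem hs (N : ℕ) : ∀ n : ℕ, n ≤ N → ∀ (G : Fin N → Fin N → ℝ), Feas G → ∀ μ : Fin N → ℝ,
    (∀ i, 0 ≤ μ i) → (∀ i, μ i ≤ 1) → ∑ i, μ i = n →
    ∃ I : Finset (Fin N), I.card = n ∧
      bf G (ind I - μ) (ind I - μ) * ((N : ℝ) - 1) ≤ n * ((N : ℝ) - n) := by
  induction N with
  | zero =>
    intro n hn G hG μ _ _ _
    refine ⟨∅, by simp; omega, ?_⟩
    have : n = 0 := by omega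
    subst this
    rw [bf_zero G _ (fun i => i.elim0)]; simp
  | succ M ih =>
    intro n hn G hG μ h0 h1 hsum
    rcases Nat.eq_zero_or_pos n with hn0 | hnpos
    · subst hn0
      refine ⟨∅, by simp, ?_⟩
      have hμ : ∀ i, μ i = 0 := by
        intro i
        have := (Finset.sum_eq_zero_iff_of_nonneg (fun i _ => h0 i)).mp (by simpa using hsum)
        exact this i (Finset.mem_univ i)
      rw [bf_zero G _ (fun i => by simp [ind, hμ])]; simp
    rcases Nat.eq_or_lt_of_le hn with hnN | hnN
    · subst hnN
      refine ⟨Finset.univ, by simp, ?_⟩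
      have hμ : ∀ i, 1 - μ i = 0 := by
        intro i
        have hs : ∑ i, (1 - μ i) = 0 := by
          rw [Finset.sum_sub_distrib, hsum]; simp
        have := (Finset.sum_eq_zero_iff_of_nonneg (fun i _ => by linarith [h1 i])).mp hs
        exact this i (Finset.mem_univ i)
      rw [bf_zero G _ (fun i => by simp only [Pi.sub_apply, ind, Finset.mem_univ, if_true]; exact hμ i)]
      simp
    have hMpos : 0 < M := by omega
    have hM1 : (1 : ℝ) ≤ M := by exact_mod_cast hMpos
    rcases Nat.eq_or_lt_of_le (show 1 ≤ n from hnpos) with hn1 | hn1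
    · -- n = 1
      subst hn1
      have hsum' : ∑ i, μ i = 1 := by simpa using hsum
      have hkey : ∑ i, μ i * bf G (Pi.single i 1 - μ) (Pi.single i 1 - μ) ≤ 1 := by
        have e1 : ∀ i, μ i * bf G (Pi.single i 1 - μ) (Pi.single i 1 - μ)
            = μ i * G i i - 2 * (μ i * bf G μ (Pi.single i 1)) + μ i * bf G μ μ := by
          intro i
          rw [bf_sub_sub hG, bf_single, bf_comm hG.symm (Pi.single i 1) μ]; ring
        simp only [e1]
        rw [Finset.sum_add_distrib, Finset.sum_sub_distrib, ← Finset.mul_sum, ← Finset.sum_mul,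
          hsum', ← bf_eq_sum_right]
        have h2 : ∑ i, μ i * G i i ≤ 1 := by
          rw [← hsum']
          exact Finset.sum_le_sum fun i _ => by
            have := mul_le_mul_of_nonneg_left (hG.diag i) (h0 i); linarith
        have := hG.psd μ
        linarith
      have hex : ∃ i, bf G (Pi.single i 1 - μ) (Pi.single i 1 - μ) ≤ 1 := by
        by_contra hcon
        push Not at hcon
        have h2 : ∑ i, μ i * 1 < ∑ i, μ i * bf G (Pi.single i 1 - μ) (Pi.single i 1 - μ) := by
          apply Finset.sum_lt_sum
          · intro i _; exact mul_le_mul_of_nonneg_left (hcon i).le (h0 i)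
          · by_contra hc
            push Not at hc
            have : ∀ i, μ i = 0 := by
              intro i
              by_contra hne
              have hpos : 0 < μ i := lt_of_le_of_ne (h0 i) (Ne.symm hne)
              have := mul_lt_mul_of_pos_left (hcon i) hpos
              have := hc i (Finset.mem_univ i)
              linarith
            simp [this] at hsum'
        simp only [mul_one] at h2
        linarith
      obtain ⟨i, hi⟩ := hex
      refine ⟨{i}, by simp, ?_⟩
      have : ind ({i} : Finset (Fin (M + 1))) = Pi.single i 1 := by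
        funext j; simp [ind, Pi.single_apply]
      rw [this]
      push_cast
      have h2 : bf G (Pi.single i 1 - μ) (Pi.single i 1 - μ) * (M : ℝ) ≤ 1 * M :=
        mul_le_mul_of_nonneg_right hi (by linarith)
      have e1 : ((M : ℝ) + 1 - 1) = M := by ring
      rw [e1]; linarith
    rcases Nat.eq_or_lt_of_le (show n ≤ M by omega) with hnM | hnM
    · -- n = M : complement
      subst hnM
      obtain ⟨ν, hν⟩ : ∃ ν : Fin (n + 1) → ℝ, ν = fun i => 1 - μ i := ⟨_, rfl⟩
      have hν0 : ∀ i, 0 ≤ ν i := fun i => by rw [hν]; linarith [h1 i]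
      have hsum' : ∑ i, ν i = 1 := by
        rw [hν, Finset.sum_sub_distrib, hsum]; simp
      have hkey : ∑ i, ν i * bf G (Pi.single i 1 - ν) (Pi.single i 1 - ν) ≤ 1 := by
        have e1 : ∀ i, ν i * bf G (Pi.single i 1 - ν) (Pi.single i 1 - ν)
            = ν i * G i i - 2 * (ν i * bf G ν (Pi.single i 1)) + ν i * bf G ν ν := by
          intro i
          rw [bf_sub_sub hG, bf_single, bf_comm hG.symm (Pi.single i 1) ν]; ring
        simp only [e1]
        rw [Finset.sum_add_distrib, Finset.sum_sub_distrib, ← Finset.mul_sum, ← Finset.sum_mul,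
          hsum', ← bf_eq_sum_right]
        have h2 : ∑ i, ν i * G i i ≤ 1 := by
          rw [← hsum']
          exact Finset.sum_le_sum fun i _ => by
            have := mul_le_mul_of_nonneg_left (hG.diag i) (hν0 i); linarith
        have := hG.psd ν
        linarith
      have hex : ∃ i, bf G (Pi.single i 1 - ν) (Pi.single i 1 - ν) ≤ 1 := by
        by_contra hcon
        push Not at hcon
        have h2 : ∑ i, ν i * 1 < ∑ i, ν i * bf G (Pi.single i 1 - ν) (Pi.single i 1 - ν) := by
          apply Finset.sum_lt_sum
          · intro i _; exact mul_le_mul_of_nonneg_left (hcon i).le (hν0 i)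
          · by_contra hc
            push Not at hc
            have : ∀ i, ν i = 0 := by
              intro i
              by_contra hne
              have hpos : 0 < ν i := lt_of_le_of_ne (hν0 i) (Ne.symm hne)
              have := mul_lt_mul_of_pos_left (hcon i) hpos
              have := hc i (Finset.mem_univ i)
              linarith
            simp [this] at hsum'
        simp only [mul_one] at h2
        linarith
      obtain ⟨i, hi⟩ := hex
      refine ⟨Finset.univ.erase i, by simp, ?_⟩
      have e0 : ind (Finset.univ.erase i) - μ = (-1 : ℝ) • (Pi.single i 1 - ν) := by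
        funext j
        by_cases hj : j = i
        · subst hj; simp [ind, hν]
        · simp [ind, hν, hj]
      rw [e0, bf_smul_left, bf_smul_right]
      push_cast
      have h2 : bf G (Pi.single i 1 - ν) (Pi.single i 1 - ν) * (n : ℝ) ≤ 1 * n :=
        mul_le_mul_of_nonneg_right hi (by linarith)
      have e1 : ((n : ℝ) + 1 - 1) = n := by ring
      have e2 : ((n : ℝ) * ((n : ℝ) + 1 - n)) = n := by ring
      rw [e1, e2]; linarith
    -- main case
    have hn2 : 2 ≤ n := hn1
    have hnR : (2 : ℝ) ≤ n := by exact_mod_cast hn2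
    have hnM' : (n : ℝ) + 1 ≤ M := by exact_mod_cast hnM
    have hbd : ∀ (G : Fin (M + 1) → Fin (M + 1) → ℝ), Feas G → ∀ μ : Fin (M + 1) → ℝ,
        (∀ i, 0 ≤ μ i) → (∀ i, μ i ≤ 1) →
        ∑ i, μ i = n → (∃ i, μ i = 0 ∨ μ i = 1) →
        ∃ I : Finset (Fin (M + 1)), I.card = n ∧
          bf G (ind I - μ) (ind I - μ) * (Fintype.card (Fin (M + 1)) - 1)
          ≤ n * (Fintype.card (Fin (M + 1)) - n) := by
      intro G hG μ h0 h1 hsum ⟨i0, hi0⟩
      rw [Fintype.card_fin]
      push_cast
      have e1 : ((M : ℝ) + 1 - 1) = M := by ring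
      rw [e1]
      rw [Fin.sum_univ_succAbove _ i0] at hsum
      rcases hi0 with hi0 | hi0
      · -- μ i0 = 0
        obtain ⟨J, hJ, hJ2⟩ := ih n (by omega) (fun i j => G (i0.succAbove i) (i0.succAbove j))
          (feas_succAbove G hG i0) (fun i => μ (i0.succAbove i)) (fun i => h0 _) (fun i => h1 _)
          (by rw [hi0] at hsum; linarith)
        refine ⟨J.map i0.succAboveEmb, by simp [hJ], ?_⟩
        have hb : bf G (ind (J.map i0.succAboveEmb) - μ) (ind (J.map i0.succAboveEmb) - μ)
            = bf (fun i j => G (i0.succAbove i) (i0.succAbove j))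
              (ind J - fun i => μ (i0.succAbove i)) (ind J - fun i => μ (i0.succAbove i)) := by
          rw [bf_succAbove G _ i0]
          · congr 1 <;>
            · funext i
              simp [ind]
          · simp [ind, hi0, Fin.succAbove_ne]
        rw [hb]
        generalize bf (fun i j => G (i0.succAbove i) (i0.succAbove j))
              (ind J - fun i => μ (i0.succAbove i)) (ind J - fun i => μ (i0.succAbove i)) = B at hJ2
        have h3 : (M : ℝ) * (B * ((M : ℝ) - 1)) ≤ (M : ℝ) * (n * ((M : ℝ) - n)) :=
          mul_le_mul_of_nonneg_left hJ2 (by linarith)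
        have h4 : (B * M) * ((M : ℝ) - 1) ≤ (n * ((M : ℝ) + 1 - n)) * ((M : ℝ) - 1) := by
          have e2 : (n * ((M : ℝ) + 1 - n)) * ((M : ℝ) - 1) - (M : ℝ) * (n * ((M : ℝ) - n))
              = n * (n - 1) := by ring
          have e3 : 0 ≤ (n : ℝ) * (n - 1) := mul_nonneg (by linarith) (by linarith)
          have e4 : (B * M) * ((M : ℝ) - 1) = (M : ℝ) * (B * ((M : ℝ) - 1)) := by ring
          rw [e4]; linarith
        exact le_of_mul_le_mul_right h4 (by linarith)
      · -- μ i0 = 1
        obtain ⟨J, hJ, hJ2⟩ := ih (n - 1) (by omega)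
          (fun i j => G (i0.succAbove i) (i0.succAbove j))
          (feas_succAbove G hG i0) (fun i => μ (i0.succAbove i)) (fun i => h0 _) (fun i => h1 _)
          (by
            rw [hi0] at hsum
            rw [Nat.cast_sub (by omega)]; push_cast; linarith)
        have hi0n : i0 ∉ J.map i0.succAboveEmb := by simp [Fin.succAbove_ne]
        refine ⟨insert i0 (J.map i0.succAboveEmb), ?_, ?_⟩
        · rw [Finset.card_insert_of_notMem hi0n, Finset.card_map, hJ]; omega
        have hb : bf G (ind (insert i0 (J.map i0.succAboveEmb)) - μ)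
              (ind (insert i0 (J.map i0.succAboveEmb)) - μ)
            = bf (fun i j => G (i0.succAbove i) (i0.succAbove j))
              (ind J - fun i => μ (i0.succAbove i)) (ind J - fun i => μ (i0.succAbove i)) := by
          rw [bf_succAbove G _ i0]
          · congr 1 <;>
            · funext i
              simp [ind, Fin.succAbove_ne]
          · simp [ind, hi0]
        rw [hb]
        rw [Nat.cast_sub (by omega)] at hJ2
        push_cast at hJ2
        generalize bf (fun i j => G (i0.succAbove i) (i0.succAbove j))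
              (ind J - fun i => μ (i0.succAbove i)) (ind J - fun i => μ (i0.succAbove i)) = B at hJ2
        have h3 : (M : ℝ) * (B * ((M : ℝ) - 1)) ≤ (M : ℝ) * (((n : ℝ) - 1) * ((M : ℝ) - (n - 1))) :=
          mul_le_mul_of_nonneg_left hJ2 (by linarith)
        have h4 : (B * M) * ((M : ℝ) - 1) ≤ (n * ((M : ℝ) + 1 - n)) * ((M : ℝ) - 1) := by
          have e2 : (n * ((M : ℝ) + 1 - n)) * ((M : ℝ) - 1)
              - (M : ℝ) * (((n : ℝ) - 1) * ((M : ℝ) - (n - 1)))
              = ((M : ℝ) + 1 - n) * (M - n) := by ring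
          have e3 : 0 ≤ ((M : ℝ) + 1 - n) * (M - n) := mul_nonneg (by linarith) (by linarith)
          have e4 : (B * M) * ((M : ℝ) - 1) = (M : ℝ) * (B * ((M : ℝ) - 1)) := by ring
          rw [e4]; linarith
        exact le_of_mul_le_mul_right h4 (by linarith)
    have := extremal (ι := Fin (M + 1)) n hn2 (by rw [Fintype.card_fin]; omega) hbd G hG μ h0 h1 hsum
    rwa [Fintype.card_fin] at this

end Pool.Agent.helper52.Skel
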