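import Pool.Agent.helper52.Skel.Core

set_option autoImplicit false

namespace Pool.Agent.helper52.Skel

open Finset

variable {ι : Type} [Fintype ι] [DecidableEq ι] {κ : Type} [Fintype κ]

theorem ind_sq (I : Finset ι) (i : ι) : ind I i * ind I i = ind I i := by
  unfold ind; split_ifs <;> norm_num

theorem core (n : ℕ) (I : κ → Finset ι) (hcard : ∀ k, (I k).card = n) (hn : 2 ≤ n)
    (hN : n + 2 ≤ Fintype.card ι) (G : ι → ι → ℝ) (hG : Feas G)
    (p : κ → ℝ) (hp0 : ∀ k, 0 ≤ p k) (hp1 : ∑ k, p k = 1)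
    (μ : ι → ℝ) (hμ : ∀ i, μ i = ∑ k, p k * ind (I k) i) (r : ℝ)
    (hr : (n : ℝ) * (Fintype.card ι - n) < r * (Fintype.card ι - 1))
    (hmin : ∀ J : Finset ι, J.card = n → r ≤ bf G (ind J - μ) (ind J - μ))
    (hact : ∀ k, bf G (ind (I k) - μ) (ind (I k) - μ) = r)
    (hopt : ∀ G', Feas G' → ∑ k, p k * bf G' (ind (I k) - μ) (ind (I k) - μ) ≤ r) : False := by
  -- basic facts
  obtain ⟨N, hNdef⟩ : ∃ N : ℝ, N = (Fintype.card ι : ℝ) := ⟨_, rfl⟩
  rw [← hNdef] at hr
  have hN2 : (n : ℝ) + 2 ≤ N := by rw [hNdef]; exact_mod_cast hN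
  have hn2 : (2 : ℝ) ≤ n := by exact_mod_cast hn
  have hind0 : ∀ k i, 0 ≤ ind (I k) i := by intro k i; unfold ind; split_ifs <;> norm_num
  have hind1 : ∀ k i, ind (I k) i ≤ 1 := by intro k i; unfold ind; split_ifs <;> norm_num
  have hμ0 : ∀ i, 0 ≤ μ i := fun i => by
    rw [hμ]; exact Finset.sum_nonneg fun k _ => mul_nonneg (hp0 k) (hind0 k i)
  have hμ1 : ∀ i, μ i ≤ 1 := fun i => by
    rw [hμ, ← hp1]
    exact Finset.sum_le_sum fun k _ => by
      have := mul_le_mul_of_nonneg_left (hind1 k i) (hp0 k); linarith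
  have hμs : ∑ i, μ i = n := by
    simp only [hμ]
    rw [Finset.sum_comm]
    have : ∀ k, ∑ i, p k * ind (I k) i = p k * n := by
      intro k; rw [← Finset.mul_sum, sum_ind, hcard]
    simp only [this]
    rw [← Finset.sum_mul, hp1, one_mul]
  set ξ : κ → ι → ℝ := fun k => ind (I k) - μ with hξ
  have hξs : ∀ k, ∑ i, ξ k i = 0 := by
    intro k
    simp only [hξ, Pi.sub_apply]
    rw [Finset.sum_sub_distrib, sum_ind, hcard, hμs]; ring
  have hpξ : ∀ i, ∑ k, p k * ξ k i = 0 := by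
    intro i
    simp only [hξ, Pi.sub_apply, mul_sub]
    rw [Finset.sum_sub_distrib, ← hμ, ← Finset.sum_mul, hp1]; ring
  obtain ⟨C, hC⟩ : ∃ C : ι → ι → ℝ, ∀ i j, C i j = ∑ k, p k * (ξ k i * ξ k j) :=
    ⟨_, fun _ _ => rfl⟩
  have hCsym : ∀ i j, C i j = C j i := by
    intro i j; rw [hC, hC]; refine Finset.sum_congr rfl fun k _ => by ring
  have hCs : ∀ i, ∑ j, C i j = 0 := by
    intro i
    simp only [hC]
    rw [Finset.sum_comm]
    apply Finset.sum_eq_zero
    intro k _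
    rw [← Finset.mul_sum, ← Finset.mul_sum, hξs]; ring
  have hCd : ∀ i, C i i = μ i * (1 - μ i) := by
    intro i
    rw [hC]
    have e1 : ∀ k, p k * (ξ k i * ξ k i) = p k * ind (I k) i * (1 - 2 * μ i) + p k * μ i ^ 2 := by
      intro k
      simp only [hξ, Pi.sub_apply]
      have := ind_sq (I k) i
      linear_combination (p k) * this
    simp only [e1]
    rw [Finset.sum_add_distrib, ← Finset.sum_mul, ← Finset.sum_mul, ← hμ, hp1]; ring
  have hbfC : ∀ G' : ι → ι → ℝ, ∑ k, p k * bf G' (ξ k) (ξ k) = ∑ i, ∑ j, C i j * G' i j := by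
    intro G'
    simp only [hC, bf, Finset.mul_sum, Finset.sum_mul]
    rw [Finset.sum_comm]
    refine Finset.sum_congr rfl fun i _ => ?_
    rw [Finset.sum_comm]
    refine Finset.sum_congr rfl fun j _ => Finset.sum_congr rfl fun k _ => by ring
  have hCr : ∑ i, ∑ j, C i j * G i j = r := by
    rw [← hbfC]
    simp only [hξ, hact]
    rw [← Finset.sum_mul, hp1, one_mul]
  have hopt' : ∀ G', Feas G' → ∑ i, ∑ j, C i j * G' i j ≤ r := by
    intro G' hG'
    rw [← hbfC]; exact hopt G' hG'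
  have hso := second_order G hG C r hCr hCsym hopt'
  obtain ⟨D, hD⟩ : ∃ D : ι → ℝ, ∀ i, D i = ∑ j, C i j * G i j := ⟨_, fun _ => rfl⟩
  have hDs : ∑ i, D i = r := by simp only [hD]; exact hCr
  simp only [← hD] at hso
  have hrpos : 0 < r := by
    by_contra hcon
    push Not at hcon
    have h1 : r * (N - 1) ≤ 0 := mul_nonpos_of_nonpos_of_nonneg hcon (by linarith)
    have h2 : 0 ≤ (n : ℝ) * (N - n) := mul_nonneg (by linarith) (by linarith)
    linarith
  have hr1 : 1 < r := by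
    have h2 : N - 1 ≤ (n : ℝ) * (N - n) := by
      have : 0 ≤ ((n : ℝ) - 1) * (N - n - 1) := mul_nonneg (by linarith) (by linarith)
      nlinarith
    have h3 : 1 * (N - 1) < r * (N - 1) := by linarith
    exact lt_of_mul_lt_mul_right h3 (by linarith)
  -- m_i ≤ D_i - D_i^2/r
  have hm : ∀ i, r * (μ i * (1 - μ i)) ≤ r * D i - D i ^ 2 := by
    intro i
    have h := hso (fun j => (if j = i then r else 0) - D i)
    have e1 : ∑ i', ∑ j, C i' j * (((if i' = i then r else 0) - D i) * ((if j = i then r else 0) - D i))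
        = r ^ 2 * C i i := by
      have e2 : ∀ i', ∑ j, C i' j * (((if i' = i then r else 0) - D i) * ((if j = i then r else 0) - D i))
          = ((if i' = i then r else 0) - D i) * (r * C i' i) := by
        intro i'
        have e3 : ∀ j, C i' j * (((if i' = i then r else 0) - D i) * ((if j = i then r else 0) - D i))
          = ((if i' = i then r else 0) - D i) * (if j = i then r * C i' j else 0)
            - ((if i' = i then r else 0) - D i) * D i * C i' j := by
          intro j; split_ifs <;> ring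
        simp only [e3]
        rw [Finset.sum_sub_distrib, ← Finset.mul_sum, ← Finset.mul_sum, hCs]
        simp
      simp only [e2]
      have e4 : ∀ i', ((if i' = i then r else 0) - D i) * (r * C i' i)
          = (if i' = i then r * (r * C i' i) else 0) - D i * r * C i i' := by
        intro i'; rw [hCsym i i']; split_ifs <;> ring
      simp only [e4]
      rw [Finset.sum_sub_distrib, ← Finset.mul_sum, hCs]
      simp; ring
    have e5 : ∑ j, D j * ((if j = i then r else 0) - D i) ^ 2 = r * (r * D i - D i ^ 2) := by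
      have e6 : ∀ j, D j * ((if j = i then r else 0) - D i) ^ 2
          = (if j = i then D j * (r ^ 2 - 2 * r * D i) else 0) + D i ^ 2 * D j := by
        intro j; split_ifs <;> ring
      simp only [e6]
      rw [Finset.sum_add_distrib, ← Finset.mul_sum, hDs]
      simp; ring
    rw [e1, e5, hCd] at h
    have h7 : r * (r * (μ i * (1 - μ i))) ≤ r * (r * D i - D i ^ 2) := by linarith
    exact le_of_mul_le_mul_left h7 hrpos
  -- the quantities
  obtain ⟨S, hS⟩ : ∃ S : ℝ, S = ∑ i, μ i * (1 - μ i) := ⟨_, rfl⟩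
  obtain ⟨Z, hZ⟩ : ∃ Z : κ → ℝ, ∀ k, Z k = ∑ i, ind (I k) i * (1 - μ i) := ⟨_, fun _ => rfl⟩
  obtain ⟨a, ha⟩ : ∃ a : κ → ι → ℝ, ∀ k, a k = fun i => μ i + ind (I k) i * (1 - 2 * μ i) :=
    ⟨_, fun _ => rfl⟩
  have hex : ∀ k, 4 * Z k * r + bf G (a k) (a k) ≤ 4 * Z k ^ 2 + r ∧ r ≤ (2 * Z k) ^ 2 ∧ 0 ≤ Z k :=
    fun k => exchange G hG n (I k) (hcard k) μ hμ0 hμ1 hμs r hmin (hact k) (Z k) (hZ k) (a k) (ha k)
  have hZs : ∑ k, p k * Z k = S := by
    rw [hS]
    simp only [hZ, Finset.mul_sum]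
    rw [Finset.sum_comm]
    refine Finset.sum_congr rfl fun i _ => ?_
    rw [hμ i, Finset.sum_mul]
    refine Finset.sum_congr rfl fun k _ => by rw [← hμ i]; ring
  obtain ⟨th, hth⟩ : ∃ th : ℝ, th * r = ∑ i, (1 - 2 * μ i) * D i :=
    ⟨(∑ i, (1 - 2 * μ i) * D i) / r, by field_simp⟩
  have haξ : ∑ k, p k * bf G (a k) (ξ k) = th * r := by
    have e1 : ∀ k, p k * bf G (a k) (ξ k) = ∑ i, ∑ j, (2 * (μ i * (1 - μ i)) * G i j * (p k * ξ k j)
        + (1 - 2 * μ i) * (p k * (ξ k i * ξ k j) * G i j)) := by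
      intro k
      unfold bf
      rw [Finset.mul_sum]
      refine Finset.sum_congr rfl fun i _ => ?_
      rw [Finset.mul_sum]
      refine Finset.sum_congr rfl fun j _ => ?_
      have e2 : a k i = 2 * (μ i * (1 - μ i)) + (1 - 2 * μ i) * ξ k i := by
        rw [ha]; simp only [hξ, Pi.sub_apply]; ring
      rw [e2]; ring
    simp only [e1]
    rw [Finset.sum_comm, hth]
    refine Finset.sum_congr rfl fun i _ => ?_
    rw [Finset.sum_comm]
    simp only [Finset.sum_add_distrib, ← Finset.mul_sum, hpξ, ← Finset.sum_mul, ← hC, mul_zero,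
      zero_add, ← hD]
  -- step: lower bound on Z
  obtain ⟨s, hs0, hs⟩ : ∃ s : ℝ, 0 < s ∧ s ^ 2 = r :=
    ⟨Real.sqrt r, Real.sqrt_pos.mpr hrpos, Real.sq_sqrt hrpos.le⟩
  have hs1 : 1 < s := by
    by_contra hcon
    push Not at hcon
    have : s ^ 2 ≤ 1 := by
      calc s ^ 2 ≤ 1 ^ 2 := pow_le_pow_left₀ hs0.le hcon 2
        _ = 1 := by norm_num
    linarith
  have hZs2 : ∀ k, s ≤ 2 * Z k := by
    intro k
    have h1 : s ^ 2 ≤ (2 * Z k) ^ 2 := by rw [hs]; exact (hex k).2.1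
    exact le_of_sq_le_sq h1 (by linarith [(hex k).2.2])
  have hS1 : 1 < 2 * S := by
    have h1 : s ≤ 2 * S := by
      calc s = ∑ k, p k * s := by rw [← Finset.sum_mul, hp1, one_mul]
        _ ≤ ∑ k, p k * (2 * Z k) :=
            Finset.sum_le_sum fun k _ => mul_le_mul_of_nonneg_left (hZs2 k) (hp0 k)
        _ = 2 * S := by
            rw [← hZs, Finset.mul_sum]
            refine Finset.sum_congr rfl fun k _ => by ring
    linarith
  have hZr : ∀ k, r ≤ 2 * Z k := by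
    intro k
    by_contra hcon
    push Not at hcon
    have h1 := (hex k).1
    have h2 : 0 ≤ bf G (a k) (a k) := hG.psd _
    have h3 : r ^ 2 - r ≤ (r - 2 * Z k) ^ 2 := by
      have : (r - 2 * Z k) ^ 2 = 4 * Z k ^ 2 + r - 4 * Z k * r + (r ^ 2 - r) := by ring
      rw [this]; linarith
    have h4 : (r - 2 * Z k) ^ 2 ≤ (r - s) ^ 2 := by
      apply pow_le_pow_left₀ (by linarith)
      linarith [hZs2 k]
    have h5 : (r - s) ^ 2 = r ^ 2 - r - 2 * r * (s - 1) := by
      have : (r - s) ^ 2 = r ^ 2 - 2 * r * s + s ^ 2 := by ring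
      rw [this, hs]; ring
    have h6 : 0 < r * (s - 1) := mul_pos hrpos (by linarith)
    linarith
  -- Cauchy-Schwarz step
  have hc2 : 0 < r ^ 2 - r := by
    have : r ^ 2 - r = r * (r - 1) := by ring
    rw [this]; exact mul_pos hrpos (by linarith)
  obtain ⟨q, hq0, hq⟩ : ∃ q : ℝ, 0 < q ∧ q ^ 2 = r ^ 2 - r + th ^ 2 * r := by
    have hpos : 0 < r ^ 2 - r + th ^ 2 * r := by
      have : 0 ≤ th ^ 2 * r := by positivity
      linarith
    exact ⟨Real.sqrt (r ^ 2 - r + th ^ 2 * r), Real.sqrt_pos.mpr hpos, Real.sq_sqrt hpos.le⟩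
  have hkey : ∀ k, r ^ 2 - r + th * bf G (a k) (ξ k) ≤ q * (2 * Z k - r) := by
    intro k
    have h1 := (hex k).1
    have hxx : bf G (ξ k) (ξ k) = r := hact k
    have hcs := hG.cs (a k) (ξ k) (by rw [hxx]; exact hrpos)
    rw [hxx] at hcs
    have hpsd := hG.psd (a k - th • ξ k)
    rw [bf_sub_left, bf_sub_right, bf_sub_right, bf_smul_left, bf_smul_left, bf_smul_right,
      bf_smul_right, bf_comm hG.symm (ξ k) (a k), hxx] at hpsd
    generalize bf G (a k) (ξ k) = B at *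
    generalize bf G (a k) (a k) = A at *
    have h3 : r ^ 2 - r + A ≤ (2 * Z k - r) ^ 2 := by
      have : (2 * Z k - r) ^ 2 = 4 * Z k ^ 2 + r - 4 * Z k * r + (r ^ 2 - r) := by ring
      rw [this]; linarith
    have h4 : (r ^ 2 - r + th * B) ^ 2 ≤ (q * (2 * Z k - r)) ^ 2 := by
      have h5 : (q * (2 * Z k - r)) ^ 2 = (r ^ 2 - r + th ^ 2 * r) * (2 * Z k - r) ^ 2 := by
        rw [mul_pow, hq]
      have h6 : (r ^ 2 - r + th ^ 2 * r) * (r ^ 2 - r + A)
          ≤ (r ^ 2 - r + th ^ 2 * r) * (2 * Z k - r) ^ 2 :=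
        mul_le_mul_of_nonneg_left h3 (by positivity)
      have h7 : (r ^ 2 - r + th ^ 2 * r) * (r ^ 2 - r + A) - (r ^ 2 - r + th * B) ^ 2
          = (r ^ 2 - r) * (A - th * B - (th * B - th * (th * r))) + th ^ 2 * (A * r - B ^ 2) := by
        ring
      have h8 : 0 ≤ (r ^ 2 - r) * (A - th * B - (th * B - th * (th * r))) :=
        mul_nonneg hc2.le hpsd
      have h9 : 0 ≤ th ^ 2 * (A * r - B ^ 2) := mul_nonneg (sq_nonneg _) (by linarith)
      rw [h5]; linarith
    have h10 : 0 ≤ q * (2 * Z k - r) := mul_nonneg hq0.le (by linarith [hZr k])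
    exact (abs_le_of_sq_le_sq' h4 h10).2
  have hq2 : q ≤ 2 * S - r := by
    have h1 : ∑ k, p k * (r ^ 2 - r + th * bf G (a k) (ξ k)) ≤ ∑ k, p k * (q * (2 * Z k - r)) :=
      Finset.sum_le_sum fun k _ => mul_le_mul_of_nonneg_left (hkey k) (hp0 k)
    have e1 : ∑ k, p k * (r ^ 2 - r + th * bf G (a k) (ξ k)) = q ^ 2 := by
      have : ∀ k, p k * (r ^ 2 - r + th * bf G (a k) (ξ k))
          = p k * (r ^ 2 - r) + th * (p k * bf G (a k) (ξ k)) := fun k => by ring
      simp only [this]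
      rw [Finset.sum_add_distrib, ← Finset.sum_mul, ← Finset.mul_sum, haξ, hp1, hq]; ring
    have e2 : ∑ k, p k * (q * (2 * Z k - r)) = q * (2 * S - r) := by
      have : ∀ k, p k * (q * (2 * Z k - r)) = 2 * q * (p k * Z k) - p k * (q * r) :=
        fun k => by ring
      simp only [this]
      rw [Finset.sum_sub_distrib, ← Finset.sum_mul, ← Finset.mul_sum, hZs, hp1]; ring
    rw [e1, e2, sq] at h1
    exact le_of_mul_le_mul_left h1 hq0
  have h3 : r * (4 * S - 1 + th ^ 2) ≤ 4 * S ^ 2 := by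
    have h1 : q ^ 2 ≤ (2 * S - r) ^ 2 := pow_le_pow_left₀ hq0.le hq2 2
    rw [hq] at h1
    have : (2 * S - r) ^ 2 = 4 * S ^ 2 - 4 * S * r + r ^ 2 := by ring
    rw [this] at h1
    have e1 : r * (4 * S - 1 + th ^ 2) = 4 * S * r - r + th ^ 2 * r := by ring
    rw [e1]; linarith
  -- step (ii)
  have hNpos : 0 < N := by linarith
  obtain ⟨u, hu⟩ : ∃ u : ℝ, u * N = 1 := ⟨N⁻¹, inv_mul_cancel₀ hNpos.ne'⟩
  have hcardsum : ∑ _i : ι, (1 : ℝ) = N := by simp [hNdef]
  obtain ⟨S0, hS0⟩ : ∃ S0 : ℝ, S0 = n * (N - n) * u := ⟨_, rfl⟩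
  obtain ⟨t, ht⟩ : ∃ t : ℝ, t = ((N - n) - n) * u := ⟨_, rfl⟩
  have htN : t * N = N - 2 * n := by rw [ht]; linear_combination (N - 2 * n) * hu
  have hS0N : S0 * N = n * (N - n) := by rw [hS0]; linear_combination (n * (N - n)) * hu
  have hth_s : ∑ i, (1 - 2 * μ i) = N - 2 * n := by
    rw [Finset.sum_sub_distrib, ← Finset.mul_sum, hμs, hcardsum]
  have hth_s2 : ∑ i, (1 - 2 * μ i) ^ 2 = N - 4 * S := by
    have : ∀ i, (1 - 2 * μ i) ^ 2 = 1 - 4 * (μ i * (1 - μ i)) := fun i => by ring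
    simp only [this]
    rw [Finset.sum_sub_distrib, ← Finset.mul_sum, ← hS, hcardsum]
  have hvar : ∑ i, (1 - 2 * μ i - t) ^ 2 = 4 * (S0 - S) := by
    have : ∀ i, (1 - 2 * μ i - t) ^ 2 = (1 - 2 * μ i) ^ 2 - 2 * t * (1 - 2 * μ i) + t ^ 2 * 1 :=
      fun i => by ring
    simp only [this]
    rw [Finset.sum_add_distrib, Finset.sum_sub_distrib, ← Finset.mul_sum, ← Finset.mul_sum,
      hth_s, hth_s2, hcardsum]
    have e1 : t ^ 2 * N = t * (t * N) := by ring
    rw [e1, htN]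
    have e2 : t * (N - 2 * n) = (t * N) * u * (N - 2 * n) := by
      have : t * N * u * (N - 2 * n) = t * (u * N) * (N - 2 * n) := by ring
      rw [this, hu]; ring
    have e3 : t * (N - 2 * ↑n) = N - 4 * S0 := by
      rw [e2, htN, hS0]
      linear_combination (N) * hu
    linarith
  have hSle : S ≤ S0 := by
    have h1 : 0 ≤ ∑ i, (1 - 2 * μ i - t) ^ 2 := Finset.sum_nonneg fun i _ => sq_nonneg _
    rw [hvar] at h1; linarith
  have hDsq : ∑ i, D i ^ 2 ≤ r ^ 2 - r * S := by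
    have h1 : ∑ i, r * (μ i * (1 - μ i)) ≤ ∑ i, (r * D i - D i ^ 2) :=
      Finset.sum_le_sum fun i _ => hm i
    rw [← Finset.mul_sum, ← hS, Finset.sum_sub_distrib, ← Finset.mul_sum, hDs] at h1
    have : r * r = r ^ 2 := by ring
    linarith
  have h2 : r * (th - t) ^ 2 ≤ 4 * (S0 - S) * (r * (1 - u) - S) := by
    have hcs : (∑ i, (D i - r * u) * (1 - 2 * μ i - t)) ^ 2
        ≤ (∑ i, (D i - r * u) ^ 2) * ∑ i, (1 - 2 * μ i - t) ^ 2 :=
      Finset.sum_mul_sq_le_sq_mul_sq _ _ _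
    have e1 : ∑ i, (D i - r * u) * (1 - 2 * μ i - t) = r * (th - t) := by
      have : ∀ i, (D i - r * u) * (1 - 2 * μ i - t)
          = (1 - 2 * μ i) * D i - t * D i - r * u * (1 - 2 * μ i) + r * u * t * 1 :=
        fun i => by ring
      simp only [this]
      rw [Finset.sum_add_distrib, Finset.sum_sub_distrib, Finset.sum_sub_distrib, ← hth,
        ← Finset.mul_sum, ← Finset.mul_sum, ← Finset.mul_sum, hDs, hth_s, hcardsum]
      linear_combination (r * u) * htN
    have e2 : ∑ i, (D i - r * u) ^ 2 ≤ r * (r * (1 - u) - S) := by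
      have : ∀ i, (D i - r * u) ^ 2 = D i ^ 2 - 2 * r * u * D i + r ^ 2 * u ^ 2 * 1 :=
        fun i => by ring
      simp only [this]
      rw [Finset.sum_add_distrib, Finset.sum_sub_distrib, ← Finset.mul_sum, ← Finset.mul_sum,
        hDs, hcardsum]
      have e3 : r ^ 2 * u ^ 2 * N = r ^ 2 * u := by linear_combination (r ^ 2 * u) * hu
      rw [e3]
      linarith
    rw [e1, hvar] at hcs
    have h4 : (∑ i, (D i - r * u) ^ 2) * (4 * (S0 - S)) ≤ r * (r * (1 - u) - S) * (4 * (S0 - S)) :=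
      mul_le_mul_of_nonneg_right e2 (by linarith)
    have h5 : r * (r * (th - t) ^ 2) ≤ r * (4 * (S0 - S) * (r * (1 - u) - S)) := by
      have e4 : r * (r * (th - t) ^ 2) = (r * (th - t)) ^ 2 := by ring
      rw [e4]; linarith
    exact le_of_mul_le_mul_left h5 hrpos
  exact arith_final n (N - n) r S th N u S0 t hn2 (by linarith) (by ring) hu hS0 ht hr hSle hS1 h2 h3

end Pool.Agent.helper52.Skel
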